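import Mathlib

namespace MP2ab1ce

open Module Submodule

section LinAlg

variable {F V : Type*} [Field F] [AddCommGroup V] [Module F V] [FiniteDimensional F V]

theorem finrank_inf_ker (A : Submodule F V) (f : Dual F V) (h : ¬ A ≤ LinearMap.ker f) :
    finrank F (A ⊓ LinearMap.ker f : Submodule F V) + 1 = finrank F A := by
  have h1 := LinearMap.finrank_range_add_finrank_ker (f.domRestrict A)
  have h2 : LinearMap.range (f.domRestrict A) = ⊤ := by
    rw [LinearMap.range_eq_top]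
    apply LinearMap.surjective
    intro h0
    apply h
    intro x hx
    have := congrArg (fun g : A →ₗ[F] F => g ⟨x, hx⟩) h0
    simpa using this
  have h3 : finrank F (LinearMap.ker (f.domRestrict A)) =
      finrank F (A ⊓ LinearMap.ker f : Submodule F V) := by
    have e1 : (LinearMap.ker (f.domRestrict A)).map A.subtype = A ⊓ LinearMap.ker f := by
      ext x
      simp only [mem_map, LinearMap.mem_ker, LinearMap.domRestrict_apply, subtype_apply,
        Subtype.exists, exists_and_left, exists_prop, mem_inf]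
      constructor
      · rintro ⟨y, h, hy, rfl⟩
        exact ⟨hy, h⟩
      · rintro ⟨h, h'⟩
        exact ⟨x, h', h, rfl⟩
    rw [← e1]
    exact (LinearEquiv.finrank_eq
      (Submodule.equivMapOfInjective A.subtype (injective_subtype A) _))
  rw [h2, finrank_top, finrank_self, h3] at h1
  omega

variable {ι : Type*} (E : ι → Submodule F V) (ph : ι → Dual F V) (d : ℕ)

theorem link_symm (hd : ∀ i, finrank F (E i) = d) (hker : ∀ i, E i ≤ LinearMap.ker (ph i))
    (hM : ∀ i j, ¬ E i ≤ LinearMap.ker (ph j) → E j ⊓ LinearMap.ker (ph i) ≤ E i)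
    {i j : ι} (h : ¬ E i ≤ LinearMap.ker (ph j)) : ¬ E j ≤ LinearMap.ker (ph i) := by
  intro h'
  have h1 : E j ≤ E i := by
    have := hM i j h
    rwa [inf_eq_left.2 h'] at this
  have h2 : E j = E i := Submodule.eq_of_le_of_finrank_eq h1 (by rw [hd, hd])
  rw [← h2] at h
  exact h (hker j)

theorem inter_eq (hd : ∀ i, finrank F (E i) = d) (hker : ∀ i, E i ≤ LinearMap.ker (ph i))
    (hM : ∀ i j, ¬ E i ≤ LinearMap.ker (ph j) → E j ⊓ LinearMap.ker (ph i) ≤ E i)
    {i j : ι} (h : ¬ E i ≤ LinearMap.ker (ph j)) :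
    E i ⊓ E j = E i ⊓ LinearMap.ker (ph j) := by
  apply le_antisymm
  · exact inf_le_inf_left _ (hker j)
  · exact le_inf inf_le_left (hM j i (link_symm E ph d hd hker hM h))

theorem finrank_inter (hd : ∀ i, finrank F (E i) = d) (hker : ∀ i, E i ≤ LinearMap.ker (ph i))
    (hM : ∀ i j, ¬ E i ≤ LinearMap.ker (ph j) → E j ⊓ LinearMap.ker (ph i) ≤ E i)
    {i j : ι} (h : ¬ E i ≤ LinearMap.ker (ph j)) :
    finrank F (E i ⊓ E j : Submodule F V) + 1 = d := by
  rw [inter_eq E ph d hd hker hM h, finrank_inf_ker _ _ h, hd]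

theorem wd_direct (hd : ∀ i, finrank F (E i) = d) (hker : ∀ i, E i ≤ LinearMap.ker (ph i))
    (hM : ∀ i j, ¬ E i ≤ LinearMap.ker (ph j) → E j ⊓ LinearMap.ker (ph i) ≤ E i)
    {i j k : ι} (h : ¬ E i ≤ LinearMap.ker (ph j)) (h' : ¬ E i ≤ LinearMap.ker (ph k))
    (hne : E i ⊓ E j ≠ E i ⊓ E k) : E k ≤ E i ⊔ E j := by
  have f1 := finrank_inter E ph d hd hker hM h
  have f2 := finrank_inter E ph d hd hker hM h'
  -- j and k are linked
  have hjk : ¬ E j ≤ LinearMap.ker (ph k) := by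
    intro hcon
    apply hne
    have : E i ⊓ E j ≤ E i ⊓ E k := by
      rw [inter_eq E ph d hd hker hM h']
      exact le_inf inf_le_left (inf_le_right.trans hcon)
    exact Submodule.eq_of_le_of_finrank_eq this (by omega)
  have f3 := finrank_inter E ph d hd hker hM hjk
  have hne2 : E j ⊓ E k ≠ E i ⊓ E k := by
    intro hcon
    apply hne
    have h1 : E i ⊓ E k ≤ E i ⊓ E j := by
      refine le_inf inf_le_left ?_
      rw [← hcon]
      exact inf_le_left
    exact (Submodule.eq_of_le_of_finrank_eq h1 (by omega)).symm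
  have hsup : (E i ⊓ E k) ⊔ (E j ⊓ E k) = E k := by
    apply Submodule.eq_of_le_of_finrank_le (sup_le inf_le_right inf_le_right)
    rw [hd]
    have hlt : (E i ⊓ E k) < (E i ⊓ E k) ⊔ (E j ⊓ E k) := by
      rw [left_lt_sup]
      intro hcon
      exact hne2 (Submodule.eq_of_le_of_finrank_eq hcon (by omega))
    have := Submodule.finrank_lt_finrank_of_lt hlt
    omega
  rw [← hsup]
  exact sup_le (inf_le_left.trans le_sup_left) (inf_le_left.trans le_sup_right)

theorem finrank_sup (hd : ∀ i, finrank F (E i) = d) (hker : ∀ i, E i ≤ LinearMap.ker (ph i))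
    (hM : ∀ i j, ¬ E i ≤ LinearMap.ker (ph j) → E j ⊓ LinearMap.ker (ph i) ≤ E i)
    {i j : ι} (h : ¬ E i ≤ LinearMap.ker (ph j)) :
    finrank F (E i ⊔ E j : Submodule F V) = d + 1 := by
  have h1 := Submodule.finrank_sup_add_finrank_inf_eq (E i) (E j)
  have h2 := finrank_inter E ph d hd hker hM h
  rw [hd, hd] at h1
  omega

theorem wd_direct' (hd : ∀ i, finrank F (E i) = d) (hker : ∀ i, E i ≤ LinearMap.ker (ph i))
    (hM : ∀ i j, ¬ E i ≤ LinearMap.ker (ph j) → E j ⊓ LinearMap.ker (ph i) ≤ E i)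
    {i j k : ι} (h : ¬ E i ≤ LinearMap.ker (ph j)) (h' : ¬ E i ≤ LinearMap.ker (ph k))
    (hne : E i ⊓ E j ≠ E i ⊓ E k) : E i ⊔ E j = E i ⊔ E k := by
  symm
  apply Submodule.eq_of_le_of_finrank_eq
  · exact sup_le le_sup_left (wd_direct E ph d hd hker hM h h' hne)
  · rw [finrank_sup E ph d hd hker hM h, finrank_sup E ph d hd hker hM h']

theorem wd (hd2 : 2 ≤ d) (hd : ∀ i, finrank F (E i) = d)
    (hker : ∀ i, E i ≤ LinearMap.ker (ph i))
    (hM : ∀ i j, ¬ E i ≤ LinearMap.ker (ph j) → E j ⊓ LinearMap.ker (ph i) ≤ E i)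
    (hN : ∀ x : V, x ≠ 0 → ∃ i, ph i x ≠ 0)
    {i j k : ι} (h : ¬ E i ≤ LinearMap.ker (ph j)) (h' : ¬ E i ≤ LinearMap.ker (ph k)) :
    E i ⊔ E j = E i ⊔ E k := by
  by_cases hne : E i ⊓ E j = E i ⊓ E k
  · have f1 := finrank_inter E ph d hd hker hM h
    have hbot : E i ⊓ E j ≠ ⊥ := by
      intro hcon
      rw [hcon, finrank_bot] at f1
      omega
    obtain ⟨x, hx, hx0⟩ := Submodule.exists_mem_ne_zero_of_ne_bot hbot
    obtain ⟨l, hl⟩ := hN x hx0
    have hil : ¬ E i ≤ LinearMap.ker (ph l) := fun hcon => hl (hcon hx.1)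
    have hxl : x ∉ E i ⊓ E l := by
      rw [inter_eq E ph d hd hker hM hil]
      exact fun hcon => hl hcon.2
    rw [wd_direct' E ph d hd hker hM h hil (fun hcon => hxl (hcon ▸ hx)),
      wd_direct' E ph d hd hker hM h' hil (fun hcon => hxl (hcon ▸ hne ▸ hx))]
  · exact wd_direct' E ph d hd hker hM h h' hne

end LinAlg

theorem gen_induct {G : Type*} [Group G] (S : Set G) (hSinv : ∀ s ∈ S, s⁻¹ ∈ S)
    (hS : Subgroup.closure S = ⊤) (P : G → Prop) (h1 : P 1) (hs : ∀ s ∈ S, P s)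
    (hmul : ∀ x y, P x → P y → P (x * y)) : ∀ g, P g := by
  intro g
  have hg : g ∈ Subgroup.closure S := by rw [hS]; trivial
  have : P g ∧ P g⁻¹ := by
    refine Subgroup.closure_induction (p := fun g _ => P g ∧ P g⁻¹) ?_ ?_ ?_ ?_ hg
    · intro s hs'
      exact ⟨hs s hs', hs _ (hSinv s hs')⟩
    · exact ⟨h1, by simpa using h1⟩
    · rintro x y _ _ ⟨hx, hx'⟩ ⟨hy, hy'⟩
      refine ⟨hmul x y hx hy, ?_⟩
      rw [mul_inv_rev]
      exact hmul _ _ hy' hx'
    · rintro x _ ⟨hx, hx'⟩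
      exact ⟨hx', by simpa using hx⟩
  exact this.1

section Main

variable {F V G : Type*} [Field F] [AddCommGroup V] [Module F V] [FiniteDimensional F V]
  [Group G]

/-- translated functional -/
def phiT (ρ : G →* Module.End F V) (φ : Dual F V) (w : G) : Dual F V := φ ∘ₗ (ρ w⁻¹)

/-- translated subspace -/
def ET (ρ : G →* Module.End F V) (E0 : Submodule F V) (w : G) : Submodule F V := E0.map (ρ w)

omit [FiniteDimensional F V] in
theorem ET_mul (ρ : G →* Module.End F V) (E0 : Submodule F V) (w x : G) :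
    ET ρ E0 (w * x) = (ET ρ E0 x).map (ρ w) := by
  unfold ET
  rw [map_mul, Module.End.mul_eq_comp, Submodule.map_comp]

omit [FiniteDimensional F V] in
theorem ET_one (ρ : G →* Module.End F V) (E0 : Submodule F V) : ET ρ E0 1 = E0 := by
  unfold ET
  rw [map_one, Module.End.one_eq_id, Submodule.map_id]

omit [FiniteDimensional F V] in
theorem rho_inj (ρ : G →* Module.End F V) (w : G) : Function.Injective (ρ w) := by
  have h : ∀ x, ρ w⁻¹ (ρ w x) = x := by
    intro x
    rw [← Module.End.mul_apply, ← map_mul, inv_mul_cancel, map_one, Module.End.one_apply]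
  exact Function.LeftInverse.injective h

theorem finrank_ET (ρ : G →* Module.End F V) (E0 : Submodule F V) (w : G) :
    finrank F (ET ρ E0 w) = finrank F E0 := by
  unfold ET
  exact (LinearEquiv.finrank_eq (Submodule.equivMapOfInjective (ρ w) (rho_inj ρ w) E0)).symm

omit [FiniteDimensional F V] in
theorem phiT_apply (ρ : G →* Module.End F V) (φ : Dual F V) (g w : G) (x : V) :
    phiT ρ φ w (ρ g x) = phiT ρ φ (g⁻¹ * w) x := by
  unfold phiT
  rw [LinearMap.comp_apply, LinearMap.comp_apply, ← Module.End.mul_apply, ← map_mul]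
  congr 3
  group

omit [FiniteDimensional F V] in
theorem ET_le_ker (ρ : G →* Module.End F V) (φ : Dual F V) (E0 : Submodule F V)
    (h : E0 ≤ LinearMap.ker φ) (w : G) : ET ρ E0 w ≤ LinearMap.ker (phiT ρ φ w) := by
  rintro _ ⟨x, hx, rfl⟩
  rw [LinearMap.mem_ker, phiT_apply, inv_mul_cancel]
  unfold phiT
  rw [inv_one, map_one]
  exact h hx

/-- bounded words detect every nonzero vector -/
theorem detect (ρ : G →* Module.End F V) (S : Set G) (hSinv : ∀ s ∈ S, s⁻¹ ∈ S)
    (hS : Subgroup.closure S = ⊤) (W : ℕ → Set G) (hW0 : 1 ∈ W 0) (hWS : S ⊆ W 1)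
    (hWmul : ∀ a b x y, x ∈ W a → y ∈ W b → x * y ∈ W (a + b))
    (hWmono : ∀ a b, a ≤ b → W a ⊆ W b)
    (hirr : ∀ K : Submodule F V, (∀ g x, x ∈ K → ρ g x ∈ K) → K = ⊥ ∨ K = ⊤)
    (φ : Dual F V) (hφ : φ ≠ 0) (x : V) (hx : x ≠ 0) :
    ∃ w ∈ W (finrank F V), phiT ρ φ w x ≠ 0 := by
  classical
  set K : ℕ → Submodule F V := fun l => ⨅ w ∈ W l, LinearMap.ker (phiT ρ φ w) with hK
  have memK : ∀ l x, x ∈ K l ↔ ∀ w ∈ W l, phiT ρ φ w x = 0 := by
    intro l x
    simp only [hK, Submodule.mem_iInf, LinearMap.mem_ker]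
  have hanti : ∀ l, K (l + 1) ≤ K l := by
    intro l x hx
    rw [memK] at hx ⊢
    exact fun w hw => hx w (hWmono l (l + 1) (Nat.le_succ l) hw)
  have htop : ∀ l, K l ≠ ⊤ := by
    intro l h
    apply hφ
    ext y
    have : y ∈ K l := by rw [h]; trivial
    rw [memK] at this
    have h1 := this 1 (hWmono 0 l (Nat.zero_le l) hW0)
    unfold phiT at h1
    rw [inv_one, map_one] at h1
    exact h1
  have hstep : ∀ l, K (l + 1) = K l → K l = ⊥ := by
    intro l hl
    have hinv : ∀ g : G, ∀ x, x ∈ K l → ρ g x ∈ K l := by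
      refine gen_induct S hSinv hS (fun g => ∀ x, x ∈ K l → ρ g x ∈ K l) ?_ ?_ ?_
      · intro x hx
        rw [map_one]
        exact hx
      · intro s hs x hx
        rw [← hl, memK] at hx
        rw [memK]
        intro w hw
        rw [phiT_apply]
        apply hx
        rw [add_comm]
        exact hWmul 1 l _ _ (hWS (hSinv s hs)) hw
      · intro a b ha hb x hx
        rw [map_mul]
        exact ha _ (hb x hx)
    rcases hirr (K l) hinv with h | h
    · exact h
    · exact absurd h (htop l)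
  have hdim : ∀ l, K l = ⊥ ∨ finrank F (K l) + l ≤ finrank F V := by
    intro l
    induction l with
    | zero =>
      right
      exact Submodule.finrank_le _
    | succ l ih =>
      rcases ih with ih | ih
      · left
        rw [eq_bot_iff, ← ih]
        exact hanti l
      · by_cases h : K (l + 1) = K l
        · left
          rw [h]
          exact hstep l h
        · right
          have := Submodule.finrank_lt_finrank_of_lt (lt_of_le_of_ne (hanti l) h)
          omega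
  have hbot : K (finrank F V) = ⊥ := by
    rcases hdim (finrank F V) with h | h
    · exact h
    · have : finrank F (K (finrank F V)) = 0 := by omega
      exact Submodule.finrank_eq_zero.1 this
  by_contra hcon
  push Not at hcon
  apply hx
  have : x ∈ K (finrank F V) := (memK _ _).2 hcon
  rw [hbot] at this
  exact this

/-- A bounded family of translates of a subspace spans. -/
theorem spanning (ρ : G →* Module.End F V) (S : Set G) (hSinv : ∀ s ∈ S, s⁻¹ ∈ S)
    (hS : Subgroup.closure S = ⊤) (W : ℕ → Set G) (hW0 : 1 ∈ W 0) (hWS : S ⊆ W 1)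
    (hWmul : ∀ a b x y, x ∈ W a → y ∈ W b → x * y ∈ W (a + b))
    (hWmono : ∀ a b, a ≤ b → W a ⊆ W b)
    (hirr : ∀ K : Submodule F V, (∀ g x, x ∈ K → ρ g x ∈ K) → K = ⊥ ∨ K = ⊤)
    (Z0 : Submodule F V) (hZ : Z0 ≠ ⊥) :
    ⨆ w ∈ W (finrank F V), ET ρ Z0 w = ⊤ := by
  classical
  set K : ℕ → Submodule F V := fun l => ⨆ w ∈ W l, ET ρ Z0 w with hK
  have hmono : ∀ l, K l ≤ K (l + 1) := by
    intro l
    simp only [hK]
    apply iSup₂_le
    intro w hw
    exact le_iSup₂ (f := fun w (_ : w ∈ W (l + 1)) => ET ρ Z0 w) w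
      (hWmono l (l + 1) (Nat.le_succ l) hw)
  have hne : ∀ l, K l ≠ ⊥ := by
    intro l h
    apply hZ
    rw [eq_bot_iff, ← h]
    have h1 := le_iSup₂ (f := fun w (_ : w ∈ W l) => ET ρ Z0 w) 1
      (hWmono 0 l (Nat.zero_le l) hW0)
    rwa [ET_one] at h1
  have hstep : ∀ l, K (l + 1) = K l → K l = ⊤ := by
    intro l hl
    have hinv : ∀ g : G, ∀ x, x ∈ K l → ρ g x ∈ K l := by
      refine gen_induct S hSinv hS (fun g => ∀ x, x ∈ K l → ρ g x ∈ K l) ?_ ?_ ?_
      · intro x hx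
        rw [map_one]
        exact hx
      · intro s hs x hx
        have h2 : (K l).map (ρ s) ≤ K (l + 1) := by
          simp only [hK, Submodule.map_iSup]
          apply iSup₂_le
          intro w hw
          rw [← ET_mul]
          refine le_iSup₂ (f := fun w (_ : w ∈ W (l + 1)) => ET ρ Z0 w) (s * w) ?_
          rw [add_comm]
          exact hWmul 1 l _ _ (hWS hs) hw
        rw [hl] at h2
        exact h2 (Submodule.mem_map_of_mem hx)
      · intro a b ha hb x hx
        rw [map_mul]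
        exact ha _ (hb x hx)
    rcases hirr (K l) hinv with h | h
    · exact absurd h (hne l)
    · exact h
  have hdim : ∀ l, K l = ⊤ ∨ l ≤ finrank F (K l) := by
    intro l
    induction l with
    | zero =>
      right
      exact Nat.zero_le _
    | succ l ih =>
      rcases ih with ih | ih
      · left
        rw [eq_top_iff, ← ih]
        exact hmono l
      · by_cases h : K (l + 1) = K l
        · left
          rw [h]
          exact hstep l h
        · right
          have := Submodule.finrank_lt_finrank_of_lt (lt_of_le_of_ne (hmono l) (Ne.symm h))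
          omega
  rcases hdim (finrank F V) with h | h
  · exact h
  · exact Submodule.eq_top_of_finrank_eq (le_antisymm (Submodule.finrank_le _) h)

theorem config_main (ρ : G →* Module.End F V) (S : Set G) (hSinv : ∀ s ∈ S, s⁻¹ ∈ S)
    (hS : Subgroup.closure S = ⊤) (W : ℕ → Set G) (hW0 : 1 ∈ W 0) (hWS : S ⊆ W 1)
    (hWmul : ∀ a b x y, x ∈ W a → y ∈ W b → x * y ∈ W (a + b))
    (hWmono : ∀ a b, a ≤ b → W a ⊆ W b)
    (hirr : ∀ K : Submodule F V, (∀ g x, x ∈ K → ρ g x ∈ K) → K = ⊥ ∨ K = ⊤)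
    (hmove : ∀ (Z : Submodule F V) (y : V), Z ≠ ⊤ → 2 ≤ finrank F Z → y ∈ Z → y ≠ 0 →
      ∃ g : G, ρ g y = y ∧ Z.map (ρ g) ≠ Z)
    (φ : Dual F V) (hφ : φ ≠ 0) (E0 : Submodule F V) (hE0 : E0 ≤ LinearMap.ker φ)
    (hd2 : 2 ≤ finrank F E0)
    (hM : ∀ w ∈ W (2 * finrank F V + 1), ∀ w' ∈ W (2 * finrank F V + 1),
      ¬ ET ρ E0 w ≤ LinearMap.ker (phiT ρ φ w') →
      ET ρ E0 w' ⊓ LinearMap.ker (phiT ρ φ w) ≤ ET ρ E0 w) :
    finrank F E0 + 1 = finrank F V := by
  classical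
  set n := finrank F V with hn
  set L := 2 * n + 1 with hL
  -- index type
  let E : W L → Submodule F V := fun w => ET ρ E0 w
  let ph : W L → Dual F V := fun w => phiT ρ φ w
  have hd : ∀ i, finrank F (E i) = finrank F E0 := fun i => finrank_ET ρ E0 i
  have hker : ∀ i, E i ≤ LinearMap.ker (ph i) := fun i => ET_le_ker ρ φ E0 hE0 i
  have hM' : ∀ i j, ¬ E i ≤ LinearMap.ker (ph j) → E j ⊓ LinearMap.ker (ph i) ≤ E i :=
    fun i j h => hM i i.2 j j.2 h
  have hdet := detect ρ S hSinv hS W hW0 hWS hWmul hWmono hirr φ hφ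
  have hN : ∀ x : V, x ≠ 0 → ∃ i, ph i x ≠ 0 := by
    intro x hx
    obtain ⟨w, hw, hwx⟩ := hdet x hx
    exact ⟨⟨w, hWmono _ _ (by omega) hw⟩, hwx⟩
  have WD : ∀ {w y z : G} (hw : w ∈ W L) (hy : y ∈ W L) (hz : z ∈ W L),
      ¬ ET ρ E0 w ≤ LinearMap.ker (phiT ρ φ y) → ¬ ET ρ E0 w ≤ LinearMap.ker (phiT ρ φ z) →
      ET ρ E0 w ⊔ ET ρ E0 y = ET ρ E0 w ⊔ ET ρ E0 z := by
    intro w y z hw hy hz h h'
    exact wd E ph _ hd2 hd hker hM' hN (i := ⟨w, hw⟩) (j := ⟨y, hy⟩) (k := ⟨z, hz⟩) h h'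
  have SY : ∀ {w y : G} (hw : w ∈ W L) (hy : y ∈ W L),
      ¬ ET ρ E0 w ≤ LinearMap.ker (phiT ρ φ y) → ¬ ET ρ E0 y ≤ LinearMap.ker (phiT ρ φ w) := by
    intro w y hw hy h
    exact link_symm E ph _ hd hker hM' (i := ⟨w, hw⟩) (j := ⟨y, hy⟩) h
  -- a first linked pair
  have hE0bot : E0 ≠ ⊥ := by
    intro h
    rw [h, finrank_bot] at hd2
    omega
  obtain ⟨y0, hy0, hy00⟩ := Submodule.exists_mem_ne_zero_of_ne_bot hE0bot
  obtain ⟨x1, hx1, hx1y⟩ := hdet y0 hy00
  have hlink1 : ¬ ET ρ E0 1 ≤ LinearMap.ker (phiT ρ φ x1) := by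
    intro h
    rw [ET_one] at h
    exact hx1y (h hy0)
  -- translate of linked pairs
  have hlinkw : ∀ w : G, ¬ ET ρ E0 w ≤ LinearMap.ker (phiT ρ φ (w * x1)) := by
    intro w h
    apply hlink1
    intro x hx
    have h1 : ρ w x ∈ ET ρ E0 w := by
      have : ET ρ E0 w = (ET ρ E0 1).map (ρ w) := by rw [← ET_mul, mul_one]
      rw [this]
      exact Submodule.mem_map_of_mem hx
    have h2 := h h1
    rw [LinearMap.mem_ker, phiT_apply, inv_mul_cancel_left] at h2
    exact h2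
  set Z0 : Submodule F V := ET ρ E0 1 ⊔ ET ρ E0 x1 with hZ0
  have hZw : ∀ w, ET ρ Z0 w = ET ρ E0 w ⊔ ET ρ E0 (w * x1) := by
    intro w
    rw [ET_mul]
    unfold ET
    rw [hZ0, Submodule.map_sup]
    congr 1
    rw [ET_one]
  have h1L : (1 : G) ∈ W L := hWmono 0 L (Nat.zero_le _) hW0
  have hx1L : x1 ∈ W L := hWmono _ _ (by omega) hx1
  have hfZ0 : finrank F Z0 = finrank F E0 + 1 :=
    finrank_sup E ph _ hd hker hM' (i := ⟨1, h1L⟩) (j := ⟨x1, hx1L⟩) hlink1
  have hwx : ∀ w ∈ W (n + 1), w * x1 ∈ W L := by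
    intro w hw
    have := hWmul (n + 1) n w x1 hw hx1
    exact hWmono _ _ (by omega) this
  have hwL : ∀ w ∈ W (n + 1), w ∈ W L := fun w hw => hWmono _ _ (by omega) hw
  -- dichotomy
  have hdich : ∀ w ∈ W (n + 1), ∀ x ∈ W (n + 1),
      ¬ ET ρ Z0 w ≤ LinearMap.ker (phiT ρ φ x) → ET ρ Z0 x = ET ρ Z0 w := by
    intro w hw x hx h
    rw [hZw, sup_le_iff, not_and_or] at h
    rw [hZw, hZw]
    rcases h with h | h
    · have h' := SY (hwL w hw) (hwL x hx) h
      calc ET ρ E0 x ⊔ ET ρ E0 (x * x1) = ET ρ E0 x ⊔ ET ρ E0 w :=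
            WD (hwL x hx) (hwx x hx) (hwL w hw) (hlinkw x) h'
        _ = ET ρ E0 w ⊔ ET ρ E0 x := sup_comm _ _
        _ = ET ρ E0 w ⊔ ET ρ E0 (w * x1) :=
            WD (hwL w hw) (hwL x hx) (hwx w hw) h (hlinkw w)
    · have h' := SY (hwx w hw) (hwL x hx) h
      have h'' := SY (hwL w hw) (hwx w hw) (hlinkw w)
      calc ET ρ E0 x ⊔ ET ρ E0 (x * x1) = ET ρ E0 x ⊔ ET ρ E0 (w * x1) :=
            WD (hwL x hx) (hwx x hx) (hwx w hw) (hlinkw x) h'
        _ = ET ρ E0 (w * x1) ⊔ ET ρ E0 x := sup_comm _ _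
        _ = ET ρ E0 (w * x1) ⊔ ET ρ E0 w :=
            WD (hwx w hw) (hwL x hx) (hwL w hw) h h''
        _ = ET ρ E0 w ⊔ ET ρ E0 (w * x1) := sup_comm _ _
  have hZ0bot : Z0 ≠ ⊥ := by
    intro h
    rw [h, finrank_bot] at hfZ0
    omega
  have hspan := spanning ρ S hSinv hS W hW0 hWS hWmul hWmono hirr Z0 hZ0bot
  rw [← hn] at hspan
  have hphi0 : ∀ x : G, phiT ρ φ x ≠ 0 := by
    intro x h
    apply hφ
    ext y
    have h1 := congrArg (fun f : Dual F V => f (ρ x y)) h
    simp only [phiT_apply, inv_mul_cancel, LinearMap.zero_apply] at h1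
    unfold phiT at h1
    rw [inv_one, map_one] at h1
    exact h1
  have hfam : ∀ x ∈ W (n + 1), ∃ w ∈ W n, ET ρ Z0 x = ET ρ Z0 w := by
    intro x hx
    by_contra hcon
    push Not at hcon
    have : (⊤ : Submodule F V) ≤ LinearMap.ker (phiT ρ φ x) := by
      rw [← hspan]
      apply iSup₂_le
      intro w hw
      by_contra h
      exact hcon w hw (hdich w (hWmono n (n + 1) (Nat.le_succ n) hw) x hx h)
    exact hphi0 x (LinearMap.ker_eq_top.1 (top_le_iff.1 this))
  have hall : ∀ g : G, ∀ w ∈ W n, ∃ w' ∈ W n, ET ρ Z0 (g * w) = ET ρ Z0 w' := by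
    refine gen_induct S hSinv hS (fun g => ∀ w ∈ W n, ∃ w' ∈ W n,
      ET ρ Z0 (g * w) = ET ρ Z0 w') ?_ ?_ ?_
    · intro w hw
      exact ⟨w, hw, by rw [one_mul]⟩
    · intro s hs w hw
      apply hfam
      rw [add_comm]
      exact hWmul 1 n _ _ (hWS hs) hw
    · intro a b ha hb w hw
      obtain ⟨w', hw', h1⟩ := hb w hw
      obtain ⟨w'', hw'', h2⟩ := ha w' hw'
      refine ⟨w'', hw'', ?_⟩
      rw [mul_assoc, ET_mul, h1, ← ET_mul, h2]
  have h1n : (1 : G) ∈ W n := hWmono 0 n (Nat.zero_le _) hW0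
  have hZtop : Z0 = ⊤ := by
    by_contra hne
    have hy0Z : y0 ∈ Z0 := by
      apply le_sup_left (a := ET ρ E0 1)
      rw [ET_one]
      exact hy0
    obtain ⟨g, hg1, hg2⟩ := hmove Z0 y0 hne (by omega) hy0Z hy00
    obtain ⟨w, hw, hgw⟩ := hall g 1 h1n
    rw [mul_one] at hgw
    obtain ⟨x, hx, hxy⟩ := hdet y0 hy00
    have hxn : x ∈ W (n + 1) := hWmono n (n + 1) (Nat.le_succ n) hx
    have hwn : w ∈ W (n + 1) := hWmono n (n + 1) (Nat.le_succ n) hw
    have h1n' : (1 : G) ∈ W (n + 1) := hWmono 0 _ (Nat.zero_le _) hW0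
    have hyw : y0 ∈ ET ρ Z0 w := by
      rw [← hgw]
      exact ⟨y0, hy0Z, hg1⟩
    have e1 := hdich w hwn x hxn (fun h => hxy (h hyw))
    have e2 := hdich 1 h1n' x hxn (fun h => hxy (h (by rw [ET_one]; exact hy0Z)))
    rw [ET_one] at e2
    apply hg2
    change ET ρ Z0 g = Z0
    rw [hgw, ← e1, e2]
  rw [← hfZ0, hZtop, finrank_top]

end Main

end MP2ab1ce
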