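import Mathlib
import Pool.Agent.Lib.MP_2ab1ce_al.Config

namespace MP2ab1ce

open Module Submodule

section

variable {F V G : Type*} [Field F] [AddCommGroup V] [Module F V] [Group G]
  (ρ : G →* Module.End F V) (hρ : Function.Injective ρ)
  (T : V → Dual F V → G) (hT : ∀ u φ, φ u = 0 → ∀ x, ρ (T u φ) x = x + φ x • u)

include hρ hT

theorem T_zero (φ : Dual F V) : T 0 φ = 1 := by
  apply hρ
  ext x
  rw [hT 0 φ (map_zero _)]
  simp

theorem T_add (u v : V) (φ : Dual F V) (hu : φ u = 0) (hv : φ v = 0) :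
    T (u + v) φ = T u φ * T v φ := by
  apply hρ
  ext x
  rw [map_mul, Module.End.mul_apply, hT _ _ hv, hT _ _ hu, hT _ _ (by rw [map_add, hu, hv, add_zero])]
  rw [map_add, map_smul, hv, smul_zero, add_zero, smul_add]
  abel

theorem T_conj (w : G) (u : V) (φ : Dual F V) (hu : φ u = 0) :
    T (ρ w u) (phiT ρ φ w) = w * T u φ * w⁻¹ := by
  have h0 : phiT ρ φ w (ρ w u) = 0 := by
    rw [phiT_apply, inv_mul_cancel]
    unfold phiT
    rw [inv_one, map_one]
    exact hu
  apply hρ
  ext x
  rw [map_mul, map_mul, Module.End.mul_apply, Module.End.mul_apply, hT _ _ h0, hT _ _ hu]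
  rw [map_add, map_smul]
  have h1 : ρ w (ρ w⁻¹ x) = x := by
    rw [← Module.End.mul_apply, ← map_mul, mul_inv_cancel, map_one, Module.End.one_apply]
  rw [h1]
  rfl

theorem T_comm (u' e : V) (ψ ψ' : Dual F V) (h1 : ψ' u' = 0) (h2 : ψ u' = 0) (h3 : ψ e = 0)
    (h4 : ψ' e = 1) : T u' ψ = T u' ψ' * T e ψ * (T u' ψ')⁻¹ * (T e ψ)⁻¹ := by
  rw [eq_mul_inv_iff_mul_eq, eq_mul_inv_iff_mul_eq]
  apply hρ
  ext x
  simp only [map_mul, Module.End.mul_apply]
  rw [hT _ _ h1, hT _ _ h1, hT _ _ h3, hT _ _ h3, hT _ _ h2]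
  simp only [map_add, map_smul, h1, h2, h3, h4, smul_zero, add_zero, smul_eq_mul, mul_zero,
    mul_one, add_smul]
  abel

variable (κ : G → ℝ) (κmul : ∀ g h, κ (g * h) ≤ κ g + κ h) (κinv : ∀ g, κ g⁻¹ = κ g)
  (κ1 : κ 1 = 0)

/-- set of short transvection directions -/
def Eset (T : V → Dual F V → G) (κ : G → ℝ) (t : ℝ) (φ : Dual F V) : Set V :=
  {u | φ u = 0 ∧ ∀ s : F, κ (T (s • u) φ) ≤ t}

include κmul κ1 in
theorem sum_bound (t : ℝ) (φ : Dual F V) (b : Finset V) (hb : ∀ u ∈ b, u ∈ Eset T κ t φ)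
    (f : V → F) : φ (∑ u ∈ b, f u • u) = 0 ∧ κ (T (∑ u ∈ b, f u • u) φ) ≤ b.card * t := by
  classical
  induction b using Finset.induction with
  | empty =>
    simp only [Finset.sum_empty, map_zero, Finset.card_empty, Nat.cast_zero, zero_mul, true_and]
    rw [T_zero ρ hρ T hT, κ1]
  | insert a s ha ih =>
    have ih' := ih (fun u hu => hb u (Finset.mem_insert_of_mem hu))
    have ha' := hb a (Finset.mem_insert_self _ _)
    rw [Finset.sum_insert ha]
    have h0 : φ (f a • a) = 0 := by rw [map_smul, ha'.1, smul_zero]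
    constructor
    · rw [map_add, h0, ih'.1, add_zero]
    · rw [T_add ρ hρ T hT _ _ _ h0 ih'.1, Finset.card_insert_of_notMem ha]
      push_cast
      have h1 := κmul (T (f a • a) φ) (T (∑ u ∈ s, f u • u) φ)
      have h2 := ha'.2 (f a)
      have h3 := ih'.2
      linarith

include κmul κ1 in
theorem span_bound [FiniteDimensional F V] (t : ℝ) (ht : 0 ≤ t) (φ : Dual F V) (u : V)
    (hu : u ∈ span F (Eset T κ t φ)) :
    φ u = 0 ∧ κ (T u φ) ≤ finrank F V * t := by
  classical
  obtain ⟨b, hb, hspan, hli⟩ := exists_linearIndependent F (Eset T κ t φ)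
  rw [← hspan] at hu
  have hfin : b.Finite := hli.setFinite
  lift b to Finset V using hfin
  have hcard : b.card ≤ finrank F V := by
    have := hli.fintype_card_le_finrank
    simpa using this
  obtain ⟨f, hf⟩ := Submodule.mem_span_finset.1 hu
  rw [← hf.2]
  have h1 := sum_bound ρ hρ T hT κ κmul κ1 t φ b (fun u hu => hb hu) f
  refine ⟨h1.1, h1.2.trans ?_⟩
  exact mul_le_mul_of_nonneg_right (by exact_mod_cast hcard) ht

omit hρ in
theorem irr_of_T [FiniteDimensional F V] (K : Submodule F V) (hK : ∀ g x, x ∈ K → ρ g x ∈ K) :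
    K = ⊥ ∨ K = ⊤ := by
  by_cases h : K = ⊥
  · left; exact h
  · right
    obtain ⟨x, hx, hx0⟩ := Submodule.exists_mem_ne_zero_of_ne_bot h
    rw [eq_top_iff]
    intro u _
    by_cases hxu : x ∈ span F {u}
    · obtain ⟨c, hc⟩ := Submodule.mem_span_singleton.1 hxu
      have hc0 : c ≠ 0 := by
        rintro rfl
        apply hx0
        rw [← hc, zero_smul]
      have : u = c⁻¹ • x := by rw [← hc, smul_smul, inv_mul_cancel₀ hc0, one_smul]
      rw [this]
      exact K.smul_mem _ hx
    · obtain ⟨f, hf1, hf2⟩ := Submodule.exists_le_ker_of_notMem hxu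
      have hfu : f u = 0 := hf2 (Submodule.mem_span_singleton_self u)
      have h1 := hK (T u f) x hx
      rw [hT u f hfu] at h1
      have h2 : f x • u ∈ K := by
        have := K.sub_mem h1 hx
        simpa using this
      have h3 := K.smul_mem (f x)⁻¹ h2
      rwa [smul_smul, inv_mul_cancel₀ hf1, one_smul] at h3

omit hρ in
theorem move_of_T [FiniteDimensional F V] (Z : Submodule F V) (y : V) (hZ : Z ≠ ⊤)
    (h2 : 2 ≤ finrank F Z) (hy : y ∈ Z) (hy0 : y ≠ 0) : ∃ g : G, ρ g y = y ∧ Z.map (ρ g) ≠ Z := by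
  obtain ⟨u, hu⟩ : ∃ u, u ∉ Z := by
    by_contra hcon
    push Not at hcon
    exact hZ (eq_top_iff.2 (fun x _ => hcon x))
  obtain ⟨z, hz, hzy⟩ : ∃ z ∈ Z, z ∉ span F {y} := by
    by_contra hcon
    push Not at hcon
    have h3 : Z ≤ span F {y} := hcon
    have h4 := Submodule.finrank_mono h3
    rw [finrank_span_singleton hy0] at h4
    omega
  have hz2 : z ∉ span F {y, u} := by
    intro hcon
    obtain ⟨a, b, hab⟩ := Submodule.mem_span_pair.1 hcon
    by_cases hb : b = 0
    · apply hzy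
      rw [Submodule.mem_span_singleton]
      exact ⟨a, by rw [← hab, hb, zero_smul, add_zero]⟩
    · apply hu
      have : u = b⁻¹ • (z - a • y) := by
        rw [← hab, add_sub_cancel_left, smul_smul, inv_mul_cancel₀ hb, one_smul]
      rw [this]
      exact Z.smul_mem _ (Z.sub_mem hz (Z.smul_mem _ hy))
  obtain ⟨f, hf1, hf2⟩ := Submodule.exists_le_ker_of_notMem hz2
  have hfy : f y = 0 := hf2 (Submodule.subset_span (by simp))
  have hfu : f u = 0 := hf2 (Submodule.subset_span (by simp))
  refine ⟨T u f, ?_, ?_⟩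
  · rw [hT u f hfu, hfy, zero_smul, add_zero]
  · intro hcon
    have h5 : ρ (T u f) z ∈ Z := by
      rw [← hcon]
      exact Submodule.mem_map_of_mem hz
    rw [hT u f hfu] at h5
    have h6 : f z • u ∈ Z := by
      have := Z.sub_mem h5 hz
      simpa using this
    apply hu
    have h7 := Z.smul_mem (f z)⁻¹ h6
    rwa [smul_smul, inv_mul_cancel₀ hf1, one_smul] at h7

omit hρ hT in
theorem scale [FiniteDimensional F V] (c Λ : ℝ)
    (φ0 : Dual F V) (hφ0 : φ0 ≠ 0) (A0 : Submodule F V) (hA0 : A0 ≤ LinearMap.ker φ0)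
    (hA2 : 2 ≤ finrank F A0) (hA : ∀ u ∈ A0, κ (T u φ0) ≤ c) :
    ∃ k ≤ finrank F V, ∃ φ : Dual F V, φ ≠ 0 ∧
      2 ≤ finrank F (span F (Eset T κ (Λ ^ k * c) φ)) ∧
      ∀ ψ : Dual F V, ψ ≠ 0 → finrank F (span F (Eset T κ (Λ ^ (k + 1) * c) ψ)) ≤
        finrank F (span F (Eset T κ (Λ ^ k * c) φ)) := by
  by_contra hcon
  push Not at hcon
  have key : ∀ k ≤ finrank F V, ∃ φ : Dual F V, φ ≠ 0 ∧
      k + 2 ≤ finrank F (span F (Eset T κ (Λ ^ k * c) φ)) := by
    intro k
    induction k with
    | zero =>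
      intro _
      refine ⟨φ0, hφ0, ?_⟩
      have : A0 ≤ span F (Eset T κ (Λ ^ 0 * c) φ0) := by
        intro u hu
        apply Submodule.subset_span
        refine ⟨hA0 hu, ?_⟩
        intro s
        rw [pow_zero, one_mul]
        exact hA _ (A0.smul_mem s hu)
      have h2 := Submodule.finrank_mono this
      omega
    | succ k ih =>
      intro hk
      obtain ⟨φ, hφ, h1⟩ := ih (by omega)
      obtain ⟨ψ, hψ, h2⟩ := hcon k (by omega) φ hφ (by omega)
      exact ⟨ψ, hψ, by omega⟩
  obtain ⟨φ, _, h⟩ := key (finrank F V) le_rfl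
  have := Submodule.finrank_le (span F (Eset T κ (Λ ^ (finrank F V) * c) φ))
  omega

include κmul κ1 κinv in
theorem good_scale [FiniteDimensional F V] (S : Set G) (hSinv : ∀ s ∈ S, s⁻¹ ∈ S)
    (hS : Subgroup.closure S = ⊤) (c : ℝ) (hc : 0 ≤ c) (hSκ : ∀ s ∈ S, κ s ≤ c)
    (φ0 : Dual F V) (hφ0 : φ0 ≠ 0) (A0 : Submodule F V) (hA0 : A0 ≤ LinearMap.ker φ0)
    (hA2 : 2 ≤ finrank F A0) (hA : ∀ u ∈ A0, κ (T u φ0) ≤ c) :
    ∃ φ : Dual F V, φ ≠ 0 ∧ ∀ w : G, κ w ≤ (finrank F V : ℕ) * c → ∀ u, phiT ρ φ w u = 0 →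
      κ (T u (phiT ρ φ w)) ≤
        (5 * finrank F V + 2) * ((20 * finrank F V + 8) ^ (finrank F V) * c) := by
  set n := finrank F V with hn
  set Λ : ℝ := 20 * n + 8 with hΛ
  have hΛ1 : 1 ≤ Λ := by rw [hΛ]; linarith [(Nat.cast_nonneg n : (0:ℝ) ≤ n)]
  obtain ⟨k, hk, φ, hφ, hd2, hmax⟩ := scale T κ c Λ φ0 hφ0 A0 hA0 hA2 hA
  set t := Λ ^ k * c with ht
  have hct : c ≤ t := by
    rw [ht]
    exact le_mul_of_one_le_left hc (one_le_pow₀ hΛ1)
  have ht0 : 0 ≤ t := hc.trans hct
  have htn : t ≤ Λ ^ n * c := by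
    rw [ht]
    exact mul_le_mul_of_nonneg_right (pow_le_pow_right₀ hΛ1 hk) hc
  set E0 := span F (Eset T κ t φ) with hE0
  have hE0ker : E0 ≤ LinearMap.ker φ := fun u hu =>
    (span_bound ρ hρ T hT κ κmul κ1 t ht0 φ u hu).1
  set W : ℕ → Set G := fun l => {g | κ g ≤ l * c} with hW
  have hW0 : (1 : G) ∈ W 0 := by
    change κ 1 ≤ ((0 : ℕ) : ℝ) * c
    rw [κ1]
    simp
  have hWS : S ⊆ W 1 := by
    intro s hs
    change κ s ≤ ((1 : ℕ) : ℝ) * c
    have := hSκ s hs
    push_cast
    linarith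
  have hWmul : ∀ a b x y, x ∈ W a → y ∈ W b → x * y ∈ W (a + b) := by
    intro a b x y hx hy
    change κ (x * y) ≤ ((a + b : ℕ) : ℝ) * c
    have h1 : κ x ≤ a * c := hx
    have h2 : κ y ≤ b * c := hy
    have := κmul x y
    push_cast
    linarith
  have hWmono : ∀ a b, a ≤ b → W a ⊆ W b := by
    intro a b hab x hx
    have h1 : κ x ≤ a * c := hx
    change κ x ≤ b * c
    refine h1.trans (mul_le_mul_of_nonneg_right (by exact_mod_cast hab) hc)
  have KB : ∀ w ∈ W (2 * n + 1), ∀ u ∈ ET ρ E0 w, phiT ρ φ w u = 0 ∧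
      κ (T u (phiT ρ φ w)) ≤ (5 * n + 2) * t := by
    intro w hw u hu
    have h0 := ET_le_ker ρ φ E0 hE0ker w hu
    refine ⟨h0, ?_⟩
    obtain ⟨u0, hu0, rfl⟩ := hu
    have h1 := span_bound ρ hρ T hT κ κmul κ1 t ht0 φ u0 hu0
    rw [T_conj ρ hρ T hT w u0 φ h1.1]
    have h2 := κmul (w * T u0 φ) w⁻¹
    have h3 := κmul w (T u0 φ)
    rw [κinv] at h2
    have h4 : κ w ≤ ((2 * n + 1 : ℕ) : ℝ) * c := hw
    push_cast at h4
    have h5 := h1.2
    have hn0 : (0 : ℝ) ≤ n := Nat.cast_nonneg n
    have h6 : (2 * (n : ℝ) + 1) * c ≤ (2 * n + 1) * t :=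
      mul_le_mul_of_nonneg_left hct (by linarith)
    linarith
  have hle : ∀ w ∈ W (2 * n + 1), ET ρ E0 w = span F (Eset T κ (Λ * t) (phiT ρ φ w)) := by
    intro w hw
    apply Submodule.eq_of_le_of_finrank_le
    · intro u hu
      apply Submodule.subset_span
      refine ⟨(KB w hw u hu).1, ?_⟩
      intro s
      have h1 := (KB w hw (s • u) ((ET ρ E0 w).smul_mem s hu)).2
      refine h1.trans (mul_le_mul_of_nonneg_right ?_ ht0)
      rw [hΛ]
      linarith [(Nat.cast_nonneg n : (0:ℝ) ≤ n)]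
    · rw [finrank_ET]
      have h1 := hmax (phiT ρ φ w) (by
        intro h
        apply hφ
        ext y
        have h1 := congrArg (fun f : Dual F V => f (ρ w y)) h
        simp only [phiT_apply, inv_mul_cancel, LinearMap.zero_apply] at h1
        unfold phiT at h1
        rw [inv_one, map_one] at h1
        exact h1)
      have h2 : Λ ^ (k + 1) * c = Λ * t := by rw [ht]; ring
      rw [h2] at h1
      exact h1
  have hM : ∀ w ∈ W (2 * n + 1), ∀ w' ∈ W (2 * n + 1),
      ¬ ET ρ E0 w ≤ LinearMap.ker (phiT ρ φ w') →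
      ET ρ E0 w' ⊓ LinearMap.ker (phiT ρ φ w) ≤ ET ρ E0 w := by
    intro w hw w' hw' hnot u' hu'
    obtain ⟨e, he, he0⟩ := SetLike.not_le_iff_exists.1 hnot
    set e' := (phiT ρ φ w' e)⁻¹ • e with he'
    have he'mem : e' ∈ ET ρ E0 w := (ET ρ E0 w).smul_mem _ he
    have he'1 : phiT ρ φ w' e' = 1 := by
      rw [he', map_smul, smul_eq_mul]
      exact inv_mul_cancel₀ he0
    rw [hle w hw]
    apply Submodule.subset_span
    refine ⟨hu'.2, ?_⟩
    intro s
    have m1 := (ET ρ E0 w').smul_mem s hu'.1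
    have k1 := KB w' hw' _ m1
    have k2 := KB w hw _ he'mem
    have k3 : phiT ρ φ w (s • u') = 0 := by
      rw [map_smul, show phiT ρ φ w u' = 0 from hu'.2, smul_zero]
    rw [T_comm ρ hρ T hT (s • u') e' (phiT ρ φ w) (phiT ρ φ w') k1.1 k3 k2.1 he'1]
    have b1 := κmul (T (s • u') (phiT ρ φ w') * T e' (phiT ρ φ w) *
      (T (s • u') (phiT ρ φ w'))⁻¹) (T e' (phiT ρ φ w))⁻¹
    have b2 := κmul (T (s • u') (phiT ρ φ w') * T e' (phiT ρ φ w))
      (T (s • u') (phiT ρ φ w'))⁻¹
    have b3 := κmul (T (s • u') (phiT ρ φ w')) (T e' (phiT ρ φ w))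
    rw [κinv] at b1 b2
    have b4 := k1.2
    have b5 := k2.2
    rw [hΛ]
    linarith
  have hmain := config_main ρ S hSinv hS W hW0 hWS hWmul hWmono
    (fun K hK => irr_of_T ρ T hT K hK) (fun Z y h1 h2 h3 h4 => move_of_T ρ T hT Z y h1 h2 h3 h4)
    φ hφ E0 hE0ker hd2 hM
  have hE0eq : E0 = LinearMap.ker φ := by
    apply Submodule.eq_of_le_of_finrank_le hE0ker
    have h1 := finrank_inf_ker (⊤ : Submodule F V) φ (by
      intro h
      exact hφ (LinearMap.ker_eq_top.1 (top_le_iff.1 h)))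
    rw [top_inf_eq, finrank_top] at h1
    omega
  refine ⟨φ, hφ, ?_⟩
  intro w hw u hu
  have hwW : w ∈ W (2 * n + 1) := hWmono n (2 * n + 1) (by omega) hw
  have huE : u ∈ ET ρ E0 w := by
    refine ⟨ρ w⁻¹ u, ?_, ?_⟩
    · rw [hE0eq]
      exact hu
    · rw [← Module.End.mul_apply, ← map_mul, mul_inv_cancel, map_one, Module.End.one_apply]
  refine (KB w hwW u huE).2.trans ?_
  exact mul_le_mul_of_nonneg_left htn (by positivity)

omit hρ hT in
/-- a separating family of functionals contains a basis of coordinates -/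
theorem exists_coord_basis [FiniteDimensional F V] (Φ : Set (Dual F V))
    (hΦ : ∀ x : V, x ≠ 0 → ∃ f ∈ Φ, f x ≠ 0) :
    ∃ e : Basis (Fin (finrank F V)) F V, ∀ i, e.coord i ∈ Φ := by
  classical
  have htop : span F Φ = ⊤ := by
    have h1 := Subspace.finrank_add_finrank_dualCoannihilator_eq (span F Φ)
    have h2 : (span F Φ).dualCoannihilator = ⊥ := by
      rw [eq_bot_iff]
      intro x hx
      rw [Submodule.mem_dualCoannihilator] at hx
      by_contra hx0
      obtain ⟨f, hf, hfx⟩ := hΦ x hx0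
      exact hfx (hx f (Submodule.subset_span hf))
    rw [h2, finrank_bot, add_zero] at h1
    apply Submodule.eq_top_of_finrank_eq
    rw [h1, Subspace.dual_finrank_eq]
  obtain ⟨b, hb, hspan, hli⟩ := exists_linearIndependent F Φ
  rw [htop] at hspan
  have hfin : b.Finite := hli.setFinite
  haveI : Fintype b := hfin.fintype
  let B : Basis b F (Dual F V) := Basis.mk hli (by rw [Subtype.range_coe, hspan])
  have hcard : Fintype.card b = finrank F V := by
    rw [← Module.finrank_eq_card_basis B, Subspace.dual_finrank_eq]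
  let ε : b ≃ Fin (finrank F V) := Fintype.equivFinOfCardEq hcard
  let e0 : Basis b F V := B.dualBasis.map (evalEquiv F V).symm
  refine ⟨e0.reindex ε, ?_⟩
  intro i
  have : (e0.reindex ε).coord i = ((ε.symm i : b) : Dual F V) := by
    apply (e0.reindex ε).ext
    intro j
    rw [Basis.coord_apply, Basis.repr_self, Basis.reindex_apply]
    change _ = ((ε.symm i : b) : Dual F V) ((evalEquiv F V).symm (B.dualBasis (ε.symm j)))
    rw [apply_evalEquiv_symm_apply]
    have hB : B (ε.symm i) = ((ε.symm i : b) : Dual F V) := by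
      simp [B]
    rw [← hB, Basis.dualBasis_apply_self, Finsupp.single_apply]
    simp only [EmbeddingLike.apply_eq_iff_eq]
    by_cases h : j = i
    · simp [h]
    · rw [if_neg h, if_neg (fun h' => h h'.symm)]
  rw [this]
  exact hb (ε.symm i).2

include κmul κ1 κinv in
theorem elim {n : ℕ} (e : Basis (Fin n) F V) (a : ℝ) (ha : 0 ≤ a)
    (hdet : ∀ g, LinearMap.det (ρ g) = 1)
    (hshort : ∀ i u, e.coord i u = 0 → κ (T u (e.coord i)) ≤ a) (g : G) :
    κ g ≤ 3 * n * a := by
  classical
  have fixT : ∀ (i : Fin n) (u : V), e.coord i u = 0 → ∀ j, j ≠ i →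
      ρ (T u (e.coord i)) (e j) = e j := by
    intro i u hu j hj
    rw [hT u _ hu, Basis.coord_apply, Basis.repr_self, Finsupp.single_apply, if_neg hj, zero_smul,
      add_zero]
  have coord_e : ∀ i j : Fin n, e.coord i (e j) = if j = i then 1 else 0 := by
    intro i j
    rw [Basis.coord_apply, Basis.repr_self, Finsupp.single_apply]
  have claimA : ∀ (k : Fin n) (x : V), e.coord k x = 1 →
      ∃ h : G, κ h ≤ a ∧ ρ h x = e k ∧ ∀ j, k < j → ρ h (e j) = e j := by
    intro k x hx
    have h0 : e.coord k (e k - x) = 0 := by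
      rw [map_sub, hx, coord_e, if_pos rfl, sub_self]
    refine ⟨T (e k - x) (e.coord k), hshort _ _ h0, ?_, ?_⟩
    · rw [hT _ _ h0, hx, one_smul]
      abel
    · intro j hj
      exact fixT k _ h0 j (ne_of_gt hj)
  have claimB : ∀ (k : Fin n) (x : V), (∃ i < k, e.coord i x ≠ 0) →
      ∃ h : G, κ h ≤ 2 * a ∧ ρ h x = e k ∧ ∀ j, k < j → ρ h (e j) = e j := by
    rintro k x ⟨i, hik, hi⟩
    set u : V := ((1 - e.coord k x) / e.coord i x) • e k with hu
    have h0 : e.coord i u = 0 := by
      rw [hu, map_smul, coord_e, if_neg (ne_of_gt hik), smul_zero]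
    have h1 : e.coord k (ρ (T u (e.coord i)) x) = 1 := by
      rw [hT _ _ h0, map_add, map_smul, hu, map_smul, coord_e, if_pos rfl]
      simp only [smul_eq_mul, mul_one]
      field_simp
      ring
    obtain ⟨h, hh1, hh2, hh3⟩ := claimA k _ h1
    refine ⟨h * T u (e.coord i), ?_, ?_, ?_⟩
    · have := κmul h (T u (e.coord i))
      have := hshort _ _ h0
      linarith
    · rw [map_mul, Module.End.mul_apply, hh2]
    · intro j hj
      rw [map_mul, Module.End.mul_apply, fixT i u h0 j (ne_of_gt (hik.trans hj)), hh3 j hj]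
  have claimC : ∀ (k : Fin n) (x : V), (k : ℕ) ≠ 0 → e.coord k x ≠ 0 →
      ∃ h : G, κ h ≤ 3 * a ∧ ρ h x = e k ∧ ∀ j, k < j → ρ h (e j) = e j := by
    intro k x hk hx
    by_cases hB : ∃ i < k, e.coord i x ≠ 0
    · obtain ⟨h, hh1, hh2, hh3⟩ := claimB k x hB
      exact ⟨h, by linarith, hh2, hh3⟩
    · push Not at hB
      have hn : 0 < n := lt_of_le_of_lt (Nat.zero_le _) k.2
      set z : Fin n := ⟨0, hn⟩ with hz
      have hzk : z < k := by
        rw [Fin.lt_def]
        exact Nat.pos_of_ne_zero hk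
      have hzx := hB z hzk
      have h0 : e.coord k (e z) = 0 := by rw [coord_e, if_neg (ne_of_lt hzk)]
      have h1 : e.coord z (ρ (T (e z) (e.coord k)) x) ≠ 0 := by
        rw [hT _ _ h0, map_add, map_smul, coord_e, if_pos rfl, hzx, zero_add, smul_eq_mul, mul_one]
        exact hx
      obtain ⟨h, hh1, hh2, hh3⟩ := claimB k _ ⟨z, hzk, h1⟩
      refine ⟨h * T (e z) (e.coord k), ?_, ?_, ?_⟩
      · have := κmul h (T (e z) (e.coord k))
        have := hshort _ _ h0
        linarith
      · rw [map_mul, Module.End.mul_apply, hh2]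
      · intro j hj
        rw [map_mul, Module.End.mul_apply, fixT k _ h0 j (ne_of_gt hj), hh3 j hj]
  have main : ∀ k ≤ n, ∀ g : G, (∀ j : Fin n, k ≤ (j : ℕ) → ρ g (e j) = e j) →
      κ g ≤ 3 * k * a := by
    intro k
    induction k with
    | zero =>
      intro _ g hg
      have : g = 1 := by
        apply hρ
        rw [map_one]
        apply e.ext
        intro j
        rw [hg j (Nat.zero_le _)]
        rfl
      rw [this, κ1]
      simp
    | succ k ih =>
      intro hk g hg
      set K : Fin n := ⟨k, hk⟩ with hK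
      set x := ρ g (e K) with hx
      obtain ⟨h, hh1, hh2, hh3⟩ : ∃ h : G, κ h ≤ 3 * a ∧ ρ h x = e K ∧
          ∀ j, K < j → ρ h (e j) = e j := by
        by_cases hB : ∃ i < K, e.coord i x ≠ 0
        · obtain ⟨h, hh1, hh2, hh3⟩ := claimB K x hB
          exact ⟨h, by linarith, hh2, hh3⟩
        · push Not at hB
          by_cases hk0 : k = 0
          · -- determinant
            have hd := hdet g
            rw [← LinearMap.det_toMatrix e] at hd
            have hlow : (LinearMap.toMatrix e e (ρ g)).IsLowerTriangular := by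
              intro i j hij
              have hij' : i < j := hij
              rw [LinearMap.toMatrix_apply, hg j (by
                have : (i : ℕ) < (j : ℕ) := hij'
                omega), Basis.repr_self, Finsupp.single_apply, if_neg (ne_of_gt hij')]
            rw [Matrix.det_of_isLowerTriangular _ hlow] at hd
            have h1 : ∏ i, LinearMap.toMatrix e e (ρ g) i i =
                LinearMap.toMatrix e e (ρ g) K K := by
              apply Finset.prod_eq_single_of_mem K (Finset.mem_univ _)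
              intro j _ hj
              have : 1 ≤ (j : ℕ) := by
                rcases Nat.eq_zero_or_pos (j : ℕ) with h | h
                · exfalso
                  apply hj
                  apply Fin.ext
                  rw [h]
                  exact hk0.symm
                · exact h
              rw [LinearMap.toMatrix_apply, hg j (by omega), Basis.repr_self,
                Finsupp.single_apply, if_pos rfl]
            rw [h1, LinearMap.toMatrix_apply] at hd
            obtain ⟨h, hh1, hh2, hh3⟩ := claimA K x hd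
            exact ⟨h, by linarith, hh2, hh3⟩
          · apply claimC K x hk0
            intro hKx
            -- x in span of later basis vectors
            have hsum : x = ∑ j, e.repr x j • e j := (e.sum_repr x).symm
            have hgx : ρ g x = x := by
              rw [hsum, map_sum]
              apply Finset.sum_congr rfl
              intro j _
              rw [map_smul]
              by_cases hj : K < j
              · rw [hg j hj]
              · have : e.repr x j = 0 := by
                  rcases lt_or_eq_of_le (not_lt.1 hj) with h | h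
                  · exact hB j h
                  · rw [h]
                    exact hKx
                rw [this, zero_smul, zero_smul]
            have hxe : x = e K := rho_inj ρ g (by rw [hgx])
            rw [hxe, coord_e, if_pos rfl] at hKx
            exact one_ne_zero hKx
      have hih := ih (by omega) (h * g) (by
        intro j hj
        rw [map_mul, Module.End.mul_apply]
        rcases lt_or_eq_of_le hj with h1 | h1
        · rw [hg j h1, hh3 j h1]
        · have : j = K := Fin.ext h1.symm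
          rw [this]
          exact hh2)
      have h3 := κmul h⁻¹ (h * g)
      rw [inv_mul_cancel_left, κinv] at h3
      push_cast
      linarith
  exact main n le_rfl g (fun j hj => absurd j.2 (not_lt.2 hj))

include κmul κ1 κinv in
theorem bounded_gen [FiniteDimensional F V] (hdet : ∀ g, LinearMap.det (ρ g) = 1)
    (S : Set G) (hSinv : ∀ s ∈ S, s⁻¹ ∈ S)
    (hS : Subgroup.closure S = ⊤) (c : ℝ) (hc : 0 ≤ c) (hSκ : ∀ s ∈ S, κ s ≤ c)
    (φ0 : Dual F V) (hφ0 : φ0 ≠ 0) (A0 : Submodule F V) (hA0 : A0 ≤ LinearMap.ker φ0)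
    (hA2 : 2 ≤ finrank F A0) (hA : ∀ u ∈ A0, κ (T u φ0) ≤ c) (g : G) :
    κ g ≤ 3 * finrank F V *
      ((5 * finrank F V + 2) * ((20 * finrank F V + 8) ^ (finrank F V) * c)) := by
  obtain ⟨φ, hφ, hshort⟩ := good_scale ρ hρ T hT κ κmul κinv κ1 S hSinv hS c hc hSκ φ0 hφ0 A0
    hA0 hA2 hA
  have hW0 : (1 : G) ∈ (fun l : ℕ => {g : G | κ g ≤ l * c}) 0 := by
    change κ 1 ≤ ((0 : ℕ) : ℝ) * c
    rw [κ1]
    simp
  have hdet' := detect ρ S hSinv hS (fun l => {g | κ g ≤ l * c}) hW0
    (by
      intro s hs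
      change κ s ≤ ((1 : ℕ) : ℝ) * c
      have := hSκ s hs
      push_cast
      linarith)
    (by
      intro a b x y hx hy
      change κ (x * y) ≤ ((a + b : ℕ) : ℝ) * c
      have h1 : κ x ≤ a * c := hx
      have h2 : κ y ≤ b * c := hy
      have := κmul x y
      push_cast
      linarith)
    (by
      intro a b hab x hx
      have h1 : κ x ≤ a * c := hx
      change κ x ≤ b * c
      exact h1.trans (mul_le_mul_of_nonneg_right (by exact_mod_cast hab) hc))
    (fun K hK => irr_of_T ρ T hT K hK) φ hφ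
  obtain ⟨e, he⟩ := exists_coord_basis
    {f : Dual F V | ∃ w : G, κ w ≤ (finrank F V : ℕ) * c ∧ phiT ρ φ w = f} (by
      intro x hx
      obtain ⟨w, hw, hwx⟩ := hdet' x hx
      exact ⟨_, ⟨w, hw, rfl⟩, hwx⟩)
  apply elim ρ hρ T hT κ κmul κinv κ1 e _ (by positivity) hdet
  intro i u hu
  obtain ⟨w, hw, hwe⟩ := he i
  rw [← hwe] at hu ⊢
  exact hshort w hw u hu

end

end MP2ab1ce
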