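import Mathlib

namespace MP2ab1ce

open Finset

variable {G : Type*} [Group G] [Fintype G] [DecidableEq G]

/-- The edges leaving `Y` in the Cayley graph `Cay(G; S)` (edges `g — s g`), recorded as the
pairs `(g, s)` with `g ∈ Y`, `s ∈ S` and `s g ∉ Y`. -/
def edgeBoundary (S Y : Finset G) : Finset (G × G) :=
  (Y ×ˢ S).filter (fun x => x.2 * x.1 ∉ Y)

/-- left regular representation -/
noncomputable def piG (g : G) : EuclideanSpace ℂ G ≃ₗᵢ[ℂ] EuclideanSpace ℂ G :=
  LinearIsometryEquiv.piLpCongrLeft 2 ℂ ℂ (Equiv.mulLeft g)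

omit [DecidableEq G] in
theorem piG_apply (g : G) (f : EuclideanSpace ℂ G) (x : G) : piG g f x = f (g⁻¹ * x) := by
  unfold piG
  simp [LinearIsometryEquiv.piLpCongrLeft_apply]

omit [DecidableEq G] in
theorem piG_mul (g h : G) : piG (g * h) = piG g * piG h := by
  ext f x
  rw [LinearIsometryEquiv.coe_mul, Function.comp_apply, piG_apply, piG_apply, piG_apply]
  rw [mul_inv_rev, mul_assoc]

omit [DecidableEq G] in
theorem piG_one : piG (1 : G) = 1 := by
  ext f x
  rw [piG_apply]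
  simp

/-- indicator vector -/
noncomputable def indv (Y : Finset G) : EuclideanSpace ℂ G :=
  WithLp.toLp 2 (fun g => if g ∈ Y then (1 : ℂ) else 0)

theorem norm_indv (Y : Finset G) : ‖indv Y‖ ^ 2 = Y.card := by
  rw [EuclideanSpace.norm_sq_eq]
  unfold indv
  simp [apply_ite, Finset.sum_ite_mem]

theorem norm_pi_indv (Y : Finset G) (g : G) : ‖piG g (indv Y) - indv Y‖ ^ 2 =
    ∑ x : G, ((if g⁻¹ * x ∈ Y then (1 : ℝ) else 0) + (if x ∈ Y then (1 : ℝ) else 0)
      - 2 * (if g⁻¹ * x ∈ Y then (1 : ℝ) else 0) * (if x ∈ Y then (1 : ℝ) else 0)) := by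
  rw [EuclideanSpace.norm_sq_eq]
  apply Finset.sum_congr rfl
  intro x _
  rw [PiLp.sub_apply, piG_apply]
  unfold indv
  simp only
  by_cases h1 : g⁻¹ * x ∈ Y <;> by_cases h2 : x ∈ Y <;> simp [h1, h2] <;> norm_num

theorem sum_translate (Y : Finset G) (g : G) :
    ∑ x : G, (if g⁻¹ * x ∈ Y then (1 : ℝ) else 0) = Y.card := by
  rw [← Equiv.sum_comp (Equiv.mulLeft g)]
  simp [Finset.sum_ite_mem]

theorem sum_inv_translate (Y : Finset G) (x : G) :
    ∑ g : G, (if g⁻¹ * x ∈ Y then (1 : ℝ) else 0) = Y.card := by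
  rw [← Equiv.sum_comp ((Equiv.inv G).trans (Equiv.mulLeft x))]
  simp [Finset.sum_ite_mem]

/-- some group element moves the indicator of a set of at most half the group a lot -/
theorem exists_far (Y : Finset G) (h2 : 2 * Y.card ≤ Fintype.card G) :
    ∃ g : G, (Y.card : ℝ) ≤ ‖piG g (indv Y) - indv Y‖ ^ 2 := by
  by_contra hcon
  push Not at hcon
  have h1 : ∑ g : G, ‖piG g (indv Y) - indv Y‖ ^ 2 < ∑ _g : G, (Y.card : ℝ) :=
    Finset.sum_lt_sum_of_nonempty ⟨1, mem_univ _⟩ (fun g _ => hcon g)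
  have h3 : ∑ g : G, ‖piG g (indv Y) - indv Y‖ ^ 2 =
      2 * Y.card * Fintype.card G - 2 * Y.card * Y.card := by
    simp only [norm_pi_indv]
    rw [Finset.sum_comm]
    simp only [Finset.sum_sub_distrib, Finset.sum_add_distrib]
    have e1 : ∑ x : G, ∑ g : G, (if g⁻¹ * x ∈ Y then (1 : ℝ) else 0) =
        Y.card * Fintype.card G := by
      simp only [sum_inv_translate]
      simp [mul_comm]
    have e2 : ∑ x : G, ∑ _g : G, (if x ∈ Y then (1 : ℝ) else 0) =
        Y.card * Fintype.card G := by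
      rw [Finset.sum_comm]
      simp [Finset.sum_ite_mem, mul_comm]
    have e3 : ∑ x : G, ∑ g : G, 2 * (if g⁻¹ * x ∈ Y then (1 : ℝ) else 0) *
        (if x ∈ Y then (1 : ℝ) else 0) = 2 * Y.card * Y.card := by
      have : ∀ x : G, ∑ g : G, 2 * (if g⁻¹ * x ∈ Y then (1 : ℝ) else 0) *
        (if x ∈ Y then (1 : ℝ) else 0) = 2 * Y.card * (if x ∈ Y then (1 : ℝ) else 0) := by
        intro x
        rw [← Finset.sum_mul, ← Finset.mul_sum, sum_inv_translate]
      simp only [this]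
      rw [← Finset.mul_sum]
      simp [Finset.sum_ite_mem]
    rw [e1, e2, e3]
    ring
  rw [h3] at h1
  simp only [Finset.sum_const, Finset.card_univ, nsmul_eq_mul] at h1
  have h4 : (2 : ℝ) * Y.card ≤ Fintype.card G := by exact_mod_cast h2
  have h5 : (0 : ℝ) ≤ Y.card := Nat.cast_nonneg _
  nlinarith

theorem near_inv (S : Finset G) (hS : ∀ s ∈ S, s⁻¹ ∈ S) (Y : Finset G) (s : G) (hs : s ∈ S) :
    ‖piG s (indv Y) - indv Y‖ ^ 2 ≤ 2 * (edgeBoundary S Y).card := by
  have b : ∀ t ∈ S, ((Y.filter (fun y => t * y ∉ Y)).card : ℝ) ≤ (edgeBoundary S Y).card := by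
    intro t ht
    have : (Y.filter (fun y => t * y ∉ Y)).card ≤ (edgeBoundary S Y).card := by
      apply Finset.card_le_card_of_injOn (fun y => (y, t))
      · intro y hy
        simp only [Finset.coe_filter, Set.mem_setOf_eq] at hy
        simp only [edgeBoundary, Finset.coe_filter, Finset.mem_product, Set.mem_setOf_eq]
        exact ⟨⟨hy.1, ht⟩, hy.2⟩
      · intro x _ y _ h
        exact congrArg Prod.fst h
    exact_mod_cast this
  have e : ‖piG s (indv Y) - indv Y‖ ^ 2 =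
      ((Y.filter (fun y => s * y ∉ Y)).card : ℝ) + ((Y.filter (fun y => s⁻¹ * y ∉ Y)).card : ℝ) := by
    rw [norm_pi_indv]
    have e1 : ∀ x : G, ((if s⁻¹ * x ∈ Y then (1 : ℝ) else 0) + (if x ∈ Y then (1 : ℝ) else 0)
      - 2 * (if s⁻¹ * x ∈ Y then (1 : ℝ) else 0) * (if x ∈ Y then (1 : ℝ) else 0)) =
      (if s⁻¹ * x ∈ Y ∧ x ∉ Y then (1 : ℝ) else 0) + (if x ∈ Y ∧ s⁻¹ * x ∉ Y then 1 else 0) := by
      intro x
      by_cases h1 : s⁻¹ * x ∈ Y <;> by_cases h2 : x ∈ Y <;> simp [h1, h2]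
      norm_num
    simp only [e1, Finset.sum_add_distrib]
    congr 1
    · rw [← Equiv.sum_comp (Equiv.mulLeft s)]
      simp only [Equiv.coe_mulLeft, inv_mul_cancel_left]
      rw [Finset.sum_boole]
      congr 2
      ext x
      simp
    · rw [Finset.sum_boole]
      congr 2
      ext x
      simp
  rw [e]
  have := b s hs
  have := b s⁻¹ (hS s hs)
  linarith

theorem connected_bound (S : Finset G) (hS : ∀ s ∈ S, s⁻¹ ∈ S)
    (hgen : ∀ P : G → Prop, P 1 → (∀ s ∈ S, P s) → (∀ x y, P x → P y → P (x * y)) → ∀ g, P g)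
    (Y : Finset G) (hY : Y.Nonempty) (h2 : 2 * Y.card ≤ Fintype.card G) :
    1 ≤ (edgeBoundary S Y).card := by
  by_contra hcon
  have h0 : edgeBoundary S Y = ∅ := by
    rw [← Finset.card_eq_zero]
    omega
  have hclosed : ∀ s ∈ S, ∀ y ∈ Y, s * y ∈ Y := by
    intro s hs y hy
    by_contra hn
    have : (y, s) ∈ edgeBoundary S Y := by
      simp only [edgeBoundary, Finset.mem_filter, Finset.mem_product]
      exact ⟨⟨hy, hs⟩, hn⟩
    rw [h0] at this
    exact absurd this (Finset.notMem_empty _)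
  have hall : ∀ g : G, ∀ y ∈ Y, g * y ∈ Y := by
    apply hgen
    · intro y hy
      rwa [one_mul]
    · exact hclosed
    · intro x y hx hy z hz
      rw [mul_assoc]
      exact hx _ (hy z hz)
  obtain ⟨y, hy⟩ := hY
  have : Y = univ := by
    ext x
    simp only [mem_univ, iff_true]
    have := hall (x * y⁻¹) y hy
    rwa [inv_mul_cancel_right] at this
  rw [this, Finset.card_univ] at h2
  have : 0 < Fintype.card G := Fintype.card_pos
  omega

end MP2ab1ce
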