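import Mathlib

namespace MP2ab1ce

open Finset

/-- pushing mass along an injective almost measure preserving map -/
theorem push_bound {α : Type*} [Fintype α] [DecidableEq α] (μ : α → ℝ) (hμ : ∀ z, 0 ≤ μ z)
    (A : α → α) (hAinj : Function.Injective A) (δ η : ℝ)
    (hA : ∀ E : Finset α, ∑ z ∈ E, μ z ≤ ∑ z ∈ E, μ (A z) + δ)
    (D : Finset α) (hD : ∑ z ∈ Dᶜ, μ z ≤ η)
    (P Q : α → Prop) [DecidablePred P] [DecidablePred Q]
    (hPQ : ∀ z ∈ D, P z → Q (A z)) :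
    ∑ z ∈ univ.filter P, μ z ≤ ∑ z ∈ univ.filter Q, μ z + (δ + η) := by
  have h1 : ∑ z ∈ univ.filter P, μ z ≤
      ∑ z ∈ (univ.filter P) ∩ D, μ z + ∑ z ∈ Dᶜ, μ z := by
    rw [← sum_union]
    · apply sum_le_sum_of_subset_of_nonneg
      · intro z hz
        by_cases h : z ∈ D
        · exact mem_union_left _ (mem_inter.2 ⟨hz, h⟩)
        · exact mem_union_right _ (mem_compl.2 h)
      · intro z _ _
        exact hμ z
    · rw [Finset.disjoint_left]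
      intro z hz hz'
      exact (mem_compl.1 hz') (mem_inter.1 hz).2
  have h2 := hA ((univ.filter P) ∩ D)
  have h3 : ∑ z ∈ (univ.filter P) ∩ D, μ (A z) ≤ ∑ z ∈ univ.filter Q, μ z := by
    rw [← sum_image (f := μ) (g := A) (fun x _ y _ h => hAinj h)]
    apply sum_le_sum_of_subset_of_nonneg
    · intro z hz
      obtain ⟨w, hw, rfl⟩ := mem_image.1 hz
      rw [mem_inter, mem_filter] at hw
      exact mem_filter.2 ⟨mem_univ _, hPQ w hw.2 hw.1.2⟩
    · intro z _ _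
      exact hμ z
  linarith

theorem quad_bound {α : Type*} [Fintype α] [DecidableEq α] (μ : α → ℝ) (hμ : ∀ z, 0 ≤ μ z)
    (A B : α → α) (hAinj : Function.Injective A) (hBinj : Function.Injective B)
    (δ η : ℝ)
    (hA : ∀ E : Finset α, ∑ z ∈ E, μ z ≤ ∑ z ∈ E, μ (A z) + δ)
    (hB : ∀ E : Finset α, ∑ z ∈ E, μ z ≤ ∑ z ∈ E, μ (B z) + δ)
    (f g : α → ℤ) (D : Finset α) (hD : ∑ z ∈ Dᶜ, μ z ≤ η)
    (m : ℤ) (hm : 1 ≤ m)
    (fA : ∀ z ∈ D, f (A z) = f z) (gA : ∀ z ∈ D, g (A z) = g z + m * f z)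
    (fB : ∀ z ∈ D, f (B z) = f z + m * g z) (gB : ∀ z ∈ D, g (B z) = g z) :
    ∑ z ∈ univ.filter (fun z => 0 ≤ f z ∧ 0 ≤ g z ∧ (f z ≠ 0 ∨ g z ≠ 0)), μ z
      ≤ 4 * (δ + η) := by
  -- P1
  have p1 := push_bound μ hμ B hBinj δ η hB D hD (fun z => 0 ≤ f z ∧ 0 < g z)
    (fun z => 0 < g z ∧ g z ≤ f z) (by
      intro z hz ⟨h1, h2⟩
      rw [fB z hz, gB z hz]
      exact ⟨h2, by nlinarith⟩)
  have p2 := push_bound μ hμ A hAinj δ η hA D hD (fun z => 0 < f z ∧ 0 ≤ g z)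
    (fun z => 0 < f z ∧ f z ≤ g z) (by
      intro z hz ⟨h1, h2⟩
      rw [fA z hz, gA z hz]
      exact ⟨h1, by nlinarith⟩)
  have p3 := push_bound μ hμ A hAinj δ η hA D hD (fun z => 0 < f z ∧ f z = g z)
    (fun z => 0 ≤ f z ∧ f z < g z) (by
      intro z hz ⟨h1, h2⟩
      rw [fA z hz, gA z hz]
      exact ⟨h1.le, by nlinarith⟩)
  have s1 : ∑ z ∈ univ.filter (fun z => 0 ≤ f z ∧ 0 < g z), μ z =
      ∑ z ∈ univ.filter (fun z => 0 ≤ f z ∧ f z < g z), μ z +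
      ∑ z ∈ univ.filter (fun z => 0 < g z ∧ g z ≤ f z), μ z := by
    rw [← sum_union]
    · congr 1
      ext z
      simp only [mem_filter, mem_univ, true_and, mem_union]
      omega
    · rw [Finset.disjoint_left]
      intro z hz hz'
      simp only [mem_filter, mem_univ, true_and] at hz hz'
      omega
  have s2 : ∑ z ∈ univ.filter (fun z => 0 < f z ∧ 0 ≤ g z), μ z =
      ∑ z ∈ univ.filter (fun z => 0 ≤ g z ∧ g z < f z), μ z +
      ∑ z ∈ univ.filter (fun z => 0 < f z ∧ f z ≤ g z), μ z := by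
    rw [← sum_union]
    · congr 1
      ext z
      simp only [mem_filter, mem_univ, true_and, mem_union]
      omega
    · rw [Finset.disjoint_left]
      intro z hz hz'
      simp only [mem_filter, mem_univ, true_and] at hz hz'
      omega
  have s3 : ∑ z ∈ univ.filter (fun z => 0 ≤ f z ∧ 0 ≤ g z ∧ (f z ≠ 0 ∨ g z ≠ 0)), μ z =
      ∑ z ∈ univ.filter (fun z => 0 ≤ f z ∧ f z < g z), μ z +
      (∑ z ∈ univ.filter (fun z => 0 ≤ g z ∧ g z < f z), μ z +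
      ∑ z ∈ univ.filter (fun z => 0 < f z ∧ f z = g z), μ z) := by
    rw [← sum_union, ← sum_union]
    · congr 1
      ext z
      simp only [mem_filter, mem_univ, true_and, mem_union]
      omega
    · rw [Finset.disjoint_left]
      intro z hz hz'
      simp only [mem_filter, mem_univ, true_and, mem_union] at hz hz'
      omega
    · rw [Finset.disjoint_left]
      intro z hz hz'
      simp only [mem_filter, mem_univ, true_and] at hz hz'
      omega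
  rw [s3]
  linarith

theorem vma_shift {p : ℕ} [NeZero p] (m : ℕ) (x y : ZMod p) (ε : ℤ) (hε : ε = 1 ∨ ε = -1)
    (hx : 2 * ((m : ℤ) + 1) * |((m : ZMod p) * x).valMinAbs| < p)
    (hy : 2 * ((m : ℤ) + 1) * |((m : ZMod p) * y).valMinAbs| < p) :
    ((m : ZMod p) * (y + (ε : ZMod p) * ((m : ZMod p) * x))).valMinAbs =
      ((m : ZMod p) * y).valMinAbs + ε * m * ((m : ZMod p) * x).valMinAbs := by
  set X := ((m : ZMod p) * x).valMinAbs with hX
  set Y := ((m : ZMod p) * y).valMinAbs with hY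
  rw [ZMod.valMinAbs_spec]
  constructor
  · push_cast
    rw [hX, hY, ZMod.coe_valMinAbs, ZMod.coe_valMinAbs]
    ring
  · have hm : (0 : ℤ) ≤ m := Int.natCast_nonneg m
    have h1 : |Y + ε * m * X| * 2 < p := by
      have h2 : |Y + ε * m * X| ≤ |Y| + m * |X| := by
        refine (abs_add_le _ _).trans ?_
        rw [abs_mul, abs_mul, abs_of_nonneg hm]
        rcases hε with h | h <;> simp [h]
      have hX0 := abs_nonneg X
      have hY0 := abs_nonneg Y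
      have h3 : ((m : ℤ) + 1) * (2 * (|Y| + m * |X|)) < (m + 1) * p := by
        nlinarith
      have h4 : 2 * (|Y| + m * |X|) < p := lt_of_mul_lt_mul_left h3 (by linarith)
      linarith
    have h5 := abs_lt.1 (show |(Y + ε * m * X) * 2| < p by rw [abs_mul]; simpa using h1)
    exact ⟨h5.1, h5.2.le⟩

theorem measure_bound {p : ℕ} [Fact p.Prime] (m : ℕ) (hm : 1 ≤ m) (hpm : ¬ p ∣ m)
    (μ : ZMod p × ZMod p → ℝ) (hμ : ∀ z, 0 ≤ μ z) (δ η : ℝ)
    (hA : ∀ E : Finset (ZMod p × ZMod p),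
      |∑ z ∈ E, μ (z.1, z.2 + m * z.1) - ∑ z ∈ E, μ z| ≤ δ)
    (hB : ∀ E : Finset (ZMod p × ZMod p),
      |∑ z ∈ E, μ (z.1 + m * z.2, z.2) - ∑ z ∈ E, μ z| ≤ δ)
    (hX : ∑ z ∈ univ.filter (fun z : ZMod p × ZMod p =>
      ¬ (2 * ((m : ℤ) + 1) * |((m : ZMod p) * z.1).valMinAbs| < p)), μ z ≤ η)
    (hY : ∑ z ∈ univ.filter (fun z : ZMod p × ZMod p =>
      ¬ (2 * ((m : ℤ) + 1) * |((m : ZMod p) * z.2).valMinAbs| < p)), μ z ≤ η) :
    ∑ z ∈ univ.filter (fun z : ZMod p × ZMod p => z ≠ 0), μ z ≤ 16 * (δ + 2 * η) := by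
  classical
  have hm0 : (m : ZMod p) ≠ 0 := by
    intro h
    exact hpm ((ZMod.natCast_eq_zero_iff m p).1 h)
  set X : ZMod p × ZMod p → ℤ := fun z => ((m : ZMod p) * z.1).valMinAbs with hXdef
  set Y : ZMod p × ZMod p → ℤ := fun z => ((m : ZMod p) * z.2).valMinAbs with hYdef
  set D : Finset (ZMod p × ZMod p) := univ.filter (fun z =>
    2 * ((m : ℤ) + 1) * |X z| < p ∧ 2 * ((m : ℤ) + 1) * |Y z| < p) with hD
  have hDc : ∑ z ∈ Dᶜ, μ z ≤ 2 * η := by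
    have : ∑ z ∈ Dᶜ, μ z ≤ ∑ z ∈ univ.filter (fun z : ZMod p × ZMod p =>
      ¬ (2 * ((m : ℤ) + 1) * |((m : ZMod p) * z.1).valMinAbs| < p)) ∪
        univ.filter (fun z : ZMod p × ZMod p =>
      ¬ (2 * ((m : ℤ) + 1) * |((m : ZMod p) * z.2).valMinAbs| < p)), μ z := by
      apply sum_le_sum_of_subset_of_nonneg
      · intro z hz
        rw [hD, mem_compl, mem_filter] at hz
        rw [mem_union, mem_filter, mem_filter]
        by_contra hcon
        push Not at hcon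
        exact hz ⟨mem_univ _, hcon.1 (mem_univ _), hcon.2 (mem_univ _)⟩
      · intro z _ _
        exact hμ z
    have h2 := sum_union_inter (s₁ := univ.filter (fun z : ZMod p × ZMod p =>
      ¬ (2 * ((m : ℤ) + 1) * |((m : ZMod p) * z.1).valMinAbs| < p))) (s₂ :=
        univ.filter (fun z : ZMod p × ZMod p =>
      ¬ (2 * ((m : ℤ) + 1) * |((m : ZMod p) * z.2).valMinAbs| < p))) (f := μ)
    have h3 := sum_nonneg (fun z (_ : z ∈ (univ.filter (fun z : ZMod p × ZMod p =>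
      ¬ (2 * ((m : ℤ) + 1) * |((m : ZMod p) * z.1).valMinAbs| < p)) ∩
        univ.filter (fun z : ZMod p × ZMod p =>
      ¬ (2 * ((m : ℤ) + 1) * |((m : ZMod p) * z.2).valMinAbs| < p)))) => hμ z)
    linarith
  -- the four maps
  set A : ℤ → ZMod p × ZMod p → ZMod p × ZMod p :=
    fun ε z => (z.1, z.2 + (ε : ZMod p) * ((m : ZMod p) * z.1)) with hAdef
  set B : ℤ → ZMod p × ZMod p → ZMod p × ZMod p :=
    fun ε z => (z.1 + (ε : ZMod p) * ((m : ZMod p) * z.2), z.2) with hBdef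
  have hAinj : ∀ ε, Function.Injective (A ε) := by
    intro ε z w h
    simp only [hAdef, Prod.mk.injEq] at h
    obtain ⟨h1, h2⟩ := h
    rw [h1] at h2
    exact Prod.ext h1 (add_right_cancel h2)
  have hBinj : ∀ ε, Function.Injective (B ε) := by
    intro ε z w h
    simp only [hBdef, Prod.mk.injEq] at h
    obtain ⟨h1, h2⟩ := h
    rw [h2] at h1
    exact Prod.ext (add_right_cancel h1) h2
  have hAA : ∀ ε, ε = 1 ∨ ε = -1 → ∀ E : Finset (ZMod p × ZMod p),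
      ∑ z ∈ E, μ z ≤ ∑ z ∈ E, μ (A ε z) + δ := by
    intro ε hε E
    rcases hε with rfl | rfl
    · have := (abs_le.1 (hA E)).1
      simp only [hAdef, Int.cast_one, one_mul]
      linarith
    · have h1 := (abs_le.1 (hA (E.image (A (-1))))).2
      rw [sum_image (fun x _ y _ h => hAinj _ h), sum_image (fun x _ y _ h => hAinj _ h)] at h1
      simp only [hAdef, Int.reduceNeg, Int.cast_neg, Int.cast_one, neg_mul, one_mul,
        neg_add_cancel_right, Prod.mk.eta] at h1 ⊢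
      linarith
  have hBB : ∀ ε, ε = 1 ∨ ε = -1 → ∀ E : Finset (ZMod p × ZMod p),
      ∑ z ∈ E, μ z ≤ ∑ z ∈ E, μ (B ε z) + δ := by
    intro ε hε E
    rcases hε with rfl | rfl
    · have := (abs_le.1 (hB E)).1
      simp only [hBdef, Int.cast_one, one_mul]
      linarith
    · have h1 := (abs_le.1 (hB (E.image (B (-1))))).2
      rw [sum_image (fun x _ y _ h => hBinj _ h), sum_image (fun x _ y _ h => hBinj _ h)] at h1
      simp only [hBdef, Int.reduceNeg, Int.cast_neg, Int.cast_one, neg_mul, one_mul,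
        neg_add_cancel_right, Prod.mk.eta] at h1 ⊢
      linarith
  have key : ∀ σ τ : ℤ, (σ = 1 ∨ σ = -1) → (τ = 1 ∨ τ = -1) →
      ∑ z ∈ univ.filter (fun z => 0 ≤ σ * X z ∧ 0 ≤ τ * Y z ∧ (σ * X z ≠ 0 ∨ τ * Y z ≠ 0)), μ z
      ≤ 4 * (δ + 2 * η) := by
    intro σ τ hσ hτ
    have hστ : σ * τ = 1 ∨ σ * τ = -1 := by
      rcases hσ with rfl | rfl <;> rcases hτ with rfl | rfl <;> simp
    have hσ2 : σ * σ = 1 := by rcases hσ with rfl | rfl <;> simp
    have hτ2 : τ * τ = 1 := by rcases hτ with rfl | rfl <;> simp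
    refine quad_bound μ hμ (A (σ * τ)) (B (σ * τ)) (hAinj _) (hBinj _) δ (2 * η)
      (hAA _ hστ) (hBB _ hστ) (fun z => σ * X z) (fun z => τ * Y z) D hDc m (by exact_mod_cast hm)
      ?_ ?_ ?_ ?_
    · intro z _
      rfl
    · intro z hz
      rw [hD, mem_filter] at hz
      have := vma_shift m z.1 z.2 (σ * τ) hστ hz.2.1 hz.2.2
      change τ * ((m : ZMod p) * (z.2 + ((σ * τ : ℤ) : ZMod p) * ((m : ZMod p) * z.1))).valMinAbs
        = τ * Y z + m * (σ * X z)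
      rw [this]
      change τ * (Y z + σ * τ * m * X z) = _
      linear_combination (m * σ * X z) * hτ2
    · intro z hz
      rw [hD, mem_filter] at hz
      have := vma_shift m z.2 z.1 (σ * τ) hστ hz.2.2 hz.2.1
      change σ * ((m : ZMod p) * (z.1 + ((σ * τ : ℤ) : ZMod p) * ((m : ZMod p) * z.2))).valMinAbs
        = σ * X z + m * (τ * Y z)
      rw [this]
      change σ * (X z + σ * τ * m * Y z) = _
      linear_combination (m * τ * Y z) * hσ2
    · intro z _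
      rfl
  have k1 := key 1 1 (by simp) (by simp)
  have k2 := key 1 (-1) (by simp) (by simp)
  have k3 := key (-1) 1 (by simp) (by simp)
  have k4 := key (-1) (-1) (by simp) (by simp)
  have hcover : ∑ z ∈ univ.filter (fun z : ZMod p × ZMod p => z ≠ 0), μ z ≤
      ∑ z ∈ univ.filter (fun z => 0 ≤ 1 * X z ∧ 0 ≤ 1 * Y z ∧ (1 * X z ≠ 0 ∨ 1 * Y z ≠ 0)), μ z +
      ∑ z ∈ univ.filter (fun z => 0 ≤ 1 * X z ∧ 0 ≤ -1 * Y z ∧
        (1 * X z ≠ 0 ∨ -1 * Y z ≠ 0)), μ z +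
      ∑ z ∈ univ.filter (fun z => 0 ≤ -1 * X z ∧ 0 ≤ 1 * Y z ∧
        (-1 * X z ≠ 0 ∨ 1 * Y z ≠ 0)), μ z +
      ∑ z ∈ univ.filter (fun z => 0 ≤ -1 * X z ∧ 0 ≤ -1 * Y z ∧
        (-1 * X z ≠ 0 ∨ -1 * Y z ≠ 0)), μ z := by
    simp only [sum_filter]
    rw [← sum_add_distrib, ← sum_add_distrib, ← sum_add_distrib]
    apply sum_le_sum
    intro z _
    have hz := hμ z
    by_cases h0 : z = 0
    · rw [if_neg (by simpa using h0)]
      have : ∀ (P : Prop) [Decidable P], 0 ≤ if P then μ z else 0 := by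
        intro P _
        split_ifs
        · exact hz
        · exact le_rfl
      have e1 := this (0 ≤ 1 * X z ∧ 0 ≤ 1 * Y z ∧ (1 * X z ≠ 0 ∨ 1 * Y z ≠ 0))
      have e2 := this (0 ≤ 1 * X z ∧ 0 ≤ -1 * Y z ∧ (1 * X z ≠ 0 ∨ -1 * Y z ≠ 0))
      have e3 := this (0 ≤ -1 * X z ∧ 0 ≤ 1 * Y z ∧ (-1 * X z ≠ 0 ∨ 1 * Y z ≠ 0))
      have e4 := this (0 ≤ -1 * X z ∧ 0 ≤ -1 * Y z ∧ (-1 * X z ≠ 0 ∨ -1 * Y z ≠ 0))
      linarith
    · have hne : X z ≠ 0 ∨ Y z ≠ 0 := by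
        by_contra hcon
        push Not at hcon
        obtain ⟨h1, h2⟩ := hcon
        simp only [hXdef, hYdef, ZMod.valMinAbs_eq_zero, mul_eq_zero, hm0, false_or] at h1 h2
        exact h0 (Prod.ext h1 h2)
      rw [if_pos h0]
      have : ∀ (P : Prop) [Decidable P], 0 ≤ if P then μ z else 0 := by
        intro P _
        split_ifs
        · exact hz
        · exact le_rfl
      have e1 := this (0 ≤ 1 * X z ∧ 0 ≤ 1 * Y z ∧ (1 * X z ≠ 0 ∨ 1 * Y z ≠ 0))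
      have e2 := this (0 ≤ 1 * X z ∧ 0 ≤ -1 * Y z ∧ (1 * X z ≠ 0 ∨ -1 * Y z ≠ 0))
      have e3 := this (0 ≤ -1 * X z ∧ 0 ≤ 1 * Y z ∧ (-1 * X z ≠ 0 ∨ 1 * Y z ≠ 0))
      have e4 := this (0 ≤ -1 * X z ∧ 0 ≤ -1 * Y z ∧ (-1 * X z ≠ 0 ∨ -1 * Y z ≠ 0))
      rcases le_total 0 (X z) with hx | hx <;> rcases le_total 0 (Y z) with hy | hy
      · rw [if_pos (show 0 ≤ 1 * X z ∧ 0 ≤ 1 * Y z ∧ (1 * X z ≠ 0 ∨ 1 * Y z ≠ 0) from
          ⟨by linarith, by linarith, by simpa using hne⟩)]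
        linarith
      · rw [if_pos (show 0 ≤ 1 * X z ∧ 0 ≤ -1 * Y z ∧ (1 * X z ≠ 0 ∨ -1 * Y z ≠ 0) from
          ⟨by linarith, by linarith, by simpa using hne⟩)]
        linarith
      · rw [if_pos (show 0 ≤ -1 * X z ∧ 0 ≤ 1 * Y z ∧ (-1 * X z ≠ 0 ∨ 1 * Y z ≠ 0) from
          ⟨by linarith, by linarith, by simpa using hne⟩)]
        linarith
      · rw [if_pos (show 0 ≤ -1 * X z ∧ 0 ≤ -1 * Y z ∧ (-1 * X z ≠ 0 ∨ -1 * Y z ≠ 0) from
          ⟨by linarith, by linarith, by simpa using hne⟩)]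
        linarith
  linarith

section Spectral
open scoped InnerProductSpace ComplexConjugate

variable {p : ℕ} [Fact p.Prime] {H : Type*} [NormedAddCommGroup H] [InnerProductSpace ℂ H]

/-- pairing -/
def dot (ζ z : ZMod p × ZMod p) : ZMod p := ζ.1 * z.1 + ζ.2 * z.2

/-- spectral projections -/
noncomputable def specP (U : ZMod p × ZMod p → (H ≃ₗᵢ[ℂ] H)) (ζ : ZMod p × ZMod p) (w : H) : H :=
  ((p : ℂ)^2)⁻¹ • ∑ z, (ZMod.stdAddChar (-(dot ζ z)) : ℂ) • U z w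

theorem sum_char (z : ZMod p × ZMod p) :
    ∑ ζ : ZMod p × ZMod p, (ZMod.stdAddChar (dot ζ z) : ℂ) = if z = 0 then (p : ℂ)^2 else 0 := by
  have h1 : ∀ x : ZMod p, ∑ ξ : ZMod p, (ZMod.stdAddChar (ξ * x) : ℂ) = if x = 0 then (p : ℂ) else 0 := by
    intro x
    rw [AddChar.sum_mulShift _ (ZMod.isPrimitive_stdAddChar p), ZMod.card]
    split_ifs <;> simp
  simp only [dot, Fintype.sum_prod_type, AddChar.map_add_eq_mul]
  simp only [← Finset.mul_sum, ← Finset.sum_mul]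
  rw [h1, h1]
  by_cases h : z = 0
  · simp [h, sq]
  · rw [if_neg h]
    by_cases h' : z.1 = 0
    · have : z.2 ≠ 0 := fun h2 => h (Prod.ext h' h2)
      simp [this]
    · simp [h']

theorem parseval (U : ZMod p × ZMod p → (H ≃ₗᵢ[ℂ] H)) (w : H) :
    ∑ ζ, ‖specP U ζ w‖ ^ 2 = ‖w‖ ^ 2 := by
  have hp : (p : ℂ) ≠ 0 := by exact_mod_cast (Fact.out : p.Prime).ne_zero
  have key : ∑ ζ, ⟪specP U ζ w, specP U ζ w⟫_ℂ = ⟪w, w⟫_ℂ := by
    have e1 : ∀ ζ, ⟪specP U ζ w, specP U ζ w⟫_ℂ = (((p : ℂ)^2)⁻¹)^2 *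
        ∑ z, ∑ z', (ZMod.stdAddChar (dot ζ (z - z')) : ℂ) * ⟪U z w, U z' w⟫_ℂ := by
      intro ζ
      unfold specP
      rw [inner_smul_left, inner_smul_right, sum_inner]
      rw [← mul_assoc]
      congr 1
      · simp [sq]
      · apply Finset.sum_congr rfl
        intro z _
        rw [inner_sum]
        apply Finset.sum_congr rfl
        intro z' _
        rw [inner_smul_left, inner_smul_right, ← AddChar.map_neg_eq_conj, neg_neg, ← mul_assoc,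
          ← AddChar.map_add_eq_mul]
        congr 2
        simp only [dot, Prod.fst_sub, Prod.snd_sub]
        ring
    rw [Finset.sum_congr rfl (fun ζ _ => e1 ζ), ← Finset.mul_sum, Finset.sum_comm]
    have e2 : ∀ z : ZMod p × ZMod p, ∑ ζ : ZMod p × ZMod p, ∑ z' : ZMod p × ZMod p, (ZMod.stdAddChar (dot ζ (z - z')) : ℂ) * ⟪U z w, U z' w⟫_ℂ = (p : ℂ)^2 * ⟪w, w⟫_ℂ := by
      intro z
      rw [Finset.sum_comm]
      simp only [← Finset.sum_mul, sum_char, sub_eq_zero, ite_mul, zero_mul, Finset.sum_ite_eq,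
        Finset.mem_univ, if_true, LinearIsometryEquiv.inner_map_map]
    rw [Finset.sum_congr rfl (fun z _ => e2 z)]
    simp only [Finset.sum_const, Finset.card_univ, Fintype.card_prod, ZMod.card, nsmul_eq_mul]
    push_cast
    field_simp
  have h2 := congrArg Complex.re key
  simp only [Complex.re_sum] at h2
  have h3 : ∀ x : H, (⟪x, x⟫_ℂ).re = ‖x‖ ^ 2 := fun x => by
    rw [inner_self_eq_norm_sq_to_K]; norm_cast
  simp only [h3] at h2
  exact h2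

theorem specP_sub (U : ZMod p × ZMod p → (H ≃ₗᵢ[ℂ] H)) (ζ : ZMod p × ZMod p) (v w : H) :
    specP U ζ (v - w) = specP U ζ v - specP U ζ w := by
  unfold specP
  rw [← smul_sub, ← Finset.sum_sub_distrib]
  congr 1
  apply Finset.sum_congr rfl
  intro z _
  rw [map_sub, smul_sub]

theorem specP_U (U : ZMod p × ZMod p → (H ≃ₗᵢ[ℂ] H)) (hU : ∀ z z', U (z + z') = U z * U z')
    (ζ z0 : ZMod p × ZMod p) (w : H) :
    specP U ζ (U z0 w) = (ZMod.stdAddChar (dot ζ z0) : ℂ) • specP U ζ w := by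
  unfold specP
  rw [smul_comm]
  congr 1
  rw [Finset.smul_sum, ← Equiv.sum_comp (Equiv.subRight z0)]
  apply Finset.sum_congr rfl
  intro z _
  simp only [Equiv.subRight_apply]
  have h1 : U (z - z0) (U z0 w) = U z w := by
    have := congrArg (fun f : H ≃ₗᵢ[ℂ] H => f w) (hU (z - z0) z0)
    simp only [sub_add_cancel] at this
    exact this.symm
  rw [h1, smul_smul, ← AddChar.map_add_eq_mul]
  congr 2
  simp only [dot, Prod.fst_sub, Prod.snd_sub]
  ring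

/-- shear equivalence -/
def shearA (m : ZMod p) : (ZMod p × ZMod p) ≃ (ZMod p × ZMod p) where
  toFun z := (z.1 + m * z.2, z.2)
  invFun z := (z.1 - m * z.2, z.2)
  left_inv z := by simp
  right_inv z := by simp

/-- shear equivalence -/
def shearB (m : ZMod p) : (ZMod p × ZMod p) ≃ (ZMod p × ZMod p) where
  toFun z := (z.1, z.2 + m * z.1)
  invFun z := (z.1, z.2 - m * z.1)
  left_inv z := by simp
  right_inv z := by simp

theorem specP_a (U : ZMod p × ZMod p → (H ≃ₗᵢ[ℂ] H)) (m : ZMod p) (a : H ≃ₗᵢ[ℂ] H)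
    (ha : ∀ z w, U (z.1 + m * z.2, z.2) (a w) = a (U z w))
    (ζ : ZMod p × ZMod p) (w : H) :
    specP U ζ (a w) = a (specP U (ζ.1, ζ.2 + m * ζ.1) w) := by
  unfold specP
  rw [map_smul, map_sum]
  congr 1
  rw [← Equiv.sum_comp (shearA m)]
  apply Finset.sum_congr rfl
  intro z _
  rw [map_smul]
  change _ • U (z.1 + m * z.2, z.2) (a w) = _
  rw [ha]
  congr 2
  simp only [dot, shearA, Equiv.coe_fn_mk]
  ring

theorem specP_b (U : ZMod p × ZMod p → (H ≃ₗᵢ[ℂ] H)) (m : ZMod p) (b : H ≃ₗᵢ[ℂ] H)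
    (hb : ∀ z w, U (z.1, z.2 + m * z.1) (b w) = b (U z w))
    (ζ : ZMod p × ZMod p) (w : H) :
    specP U ζ (b w) = b (specP U (ζ.1 + m * ζ.2, ζ.2) w) := by
  unfold specP
  rw [map_smul, map_sum]
  congr 1
  rw [← Equiv.sum_comp (shearB m)]
  apply Finset.sum_congr rfl
  intro z _
  rw [map_smul]
  change _ • U (z.1, z.2 + m * z.1) (b w) = _
  rw [hb]
  congr 2
  simp only [dot, shearB, Equiv.coe_fn_mk]
  ring

theorem diff_bound {ι : Type*} (E : Finset ι) (x y : ι → H) (δ : ℝ) (hδ : 0 ≤ δ)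
    (hx : ∑ i ∈ E, ‖x i‖ ^ 2 ≤ 1) (hy : ∑ i ∈ E, ‖y i‖ ^ 2 ≤ 1)
    (hxy : ∑ i ∈ E, ‖x i - y i‖ ^ 2 ≤ δ ^ 2) :
    |∑ i ∈ E, ‖x i‖ ^ 2 - ∑ i ∈ E, ‖y i‖ ^ 2| ≤ 2 * δ := by
  rw [← Finset.sum_sub_distrib]
  have h1 : |∑ i ∈ E, (‖x i‖ ^ 2 - ‖y i‖ ^ 2)| ≤ ∑ i ∈ E, ‖x i - y i‖ * (‖x i‖ + ‖y i‖) := by
    refine (Finset.abs_sum_le_sum_abs _ _).trans ?_
    apply Finset.sum_le_sum
    intro i _
    have e : ‖x i‖ ^ 2 - ‖y i‖ ^ 2 = (‖x i‖ - ‖y i‖) * (‖x i‖ + ‖y i‖) := by ring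
    rw [e, abs_mul, abs_of_nonneg (by positivity : (0:ℝ) ≤ ‖x i‖ + ‖y i‖)]
    exact mul_le_mul_of_nonneg_right (abs_norm_sub_norm_le _ _) (by positivity)
  have h2 := Finset.sum_mul_sq_le_sq_mul_sq E (fun i => ‖x i - y i‖) (fun i => ‖x i‖ + ‖y i‖)
  have h3 : ∑ i ∈ E, (‖x i‖ + ‖y i‖) ^ 2 ≤ 4 := by
    have : ∑ i ∈ E, (‖x i‖ + ‖y i‖) ^ 2 ≤ ∑ i ∈ E, (2 * ‖x i‖ ^ 2 + 2 * ‖y i‖ ^ 2) := by
      apply Finset.sum_le_sum
      intro i _
      nlinarith [sq_nonneg (‖x i‖ - ‖y i‖)]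
    rw [Finset.sum_add_distrib, ← Finset.mul_sum, ← Finset.mul_sum] at this
    linarith
  have h4 : (∑ i ∈ E, ‖x i - y i‖ * (‖x i‖ + ‖y i‖)) ^ 2 ≤ (2 * δ) ^ 2 := by
    refine h2.trans ?_
    have h5 : 0 ≤ ∑ i ∈ E, ‖x i - y i‖ ^ 2 := Finset.sum_nonneg (fun i _ => by positivity)
    have h6 : 0 ≤ ∑ i ∈ E, (‖x i‖ + ‖y i‖) ^ 2 := Finset.sum_nonneg (fun i _ => by positivity)
    nlinarith
  exact h1.trans (abs_le_of_sq_le_sq' h4 (by positivity)).2

theorem char_lower (m : ℕ) (ξ : ZMod p)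
    (h : ¬ (2 * ((m : ℤ) + 1) * |((m : ZMod p) * ξ).valMinAbs| < p)) :
    4 / ((m : ℝ) + 1) ^ 2 ≤ ‖(ZMod.stdAddChar ((m : ZMod p) * ξ) : ℂ) - 1‖ ^ 2 := by
  set X := ((m : ZMod p) * ξ).valMinAbs with hX
  have hp0 : (0 : ℝ) < p := by exact_mod_cast (Fact.out : p.Prime).pos
  have e0 : (m : ZMod p) * ξ = (X : ZMod p) := by rw [hX, ZMod.coe_valMinAbs]
  rw [e0, ZMod.stdAddChar_coe]
  have e1 : Complex.exp (2 * Real.pi * Complex.I * X / p) =
      Complex.exp (Complex.I * ((2 * Real.pi * X / p : ℝ) : ℂ)) := by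
    congr 1
    push_cast
    ring
  rw [e1, Complex.norm_exp_I_mul_ofReal_sub_one]
  have hX2 : |(X : ℝ)| * 2 ≤ p := by
    have h1 := ((m : ZMod p) * ξ).valMinAbs_mem_Ioc
    rw [← hX] at h1
    have h2 : |X| * 2 ≤ p := by
      rcases abs_cases X with ⟨hh, _⟩ | ⟨hh, _⟩ <;> rw [hh]
      · exact h1.2
      · have := h1.1
        linarith
    exact_mod_cast h2
  have hX3 : (p : ℝ) ≤ 2 * ((m : ℝ) + 1) * |(X : ℝ)| := by
    push Not at h
    exact_mod_cast h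
  have h5 : |2 * Real.pi * X / p / 2| = Real.pi * |(X : ℝ)| / p := by
    rw [show 2 * Real.pi * (X : ℝ) / p / 2 = (Real.pi / p) * X by ring, abs_mul,
      abs_of_pos (by positivity)]
    ring
  have h6 : 2 / Real.pi * (Real.pi * |(X : ℝ)| / p) ≤ Real.sin (Real.pi * |(X : ℝ)| / p) := by
    apply Real.mul_le_sin
    · positivity
    · rw [div_le_div_iff₀ hp0 (by norm_num)]
      nlinarith [Real.pi_pos]
  have h7 : |Real.sin (2 * Real.pi * X / p / 2)| = |Real.sin (Real.pi * |(X : ℝ)| / p)| := by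
    rw [← h5]
    rcases abs_cases (2 * Real.pi * X / p / 2) with ⟨hh, _⟩ | ⟨hh, _⟩ <;> rw [hh]
    rw [Real.sin_neg, abs_neg]
  have h8 : 2 / ((m : ℝ) + 1) ≤ ‖2 * Real.sin (2 * Real.pi * X / p / 2)‖ := by
    rw [Real.norm_eq_abs, abs_mul, h7, abs_of_pos (by norm_num : (0:ℝ) < 2)]
    have h9 : 2 / Real.pi * (Real.pi * |(X : ℝ)| / p) = 2 * |(X : ℝ)| / p := by
      field_simp
    rw [h9] at h6
    have h10 : 1 / ((m : ℝ) + 1) ≤ 2 * |(X : ℝ)| / p := by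
      rw [div_le_div_iff₀ (by positivity) hp0]
      linarith
    have h11 := le_abs_self (Real.sin (Real.pi * |(X : ℝ)| / p))
    calc 2 / ((m : ℝ) + 1) = 2 * (1 / ((m : ℝ) + 1)) := by ring
      _ ≤ 2 * |Real.sin (Real.pi * |(X : ℝ)| / p)| := by linarith
  calc 4 / ((m : ℝ) + 1) ^ 2 = (2 / ((m : ℝ) + 1)) ^ 2 := by rw [div_pow]; norm_num
    _ ≤ _ := by
      apply pow_le_pow_left₀ (by positivity) h8

theorem relT (m : ℕ) (hm : 1 ≤ m) (hpm : ¬ p ∣ m)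
    (U : ZMod p × ZMod p → (H ≃ₗᵢ[ℂ] H)) (hU : ∀ z z', U (z + z') = U z * U z')
    (a b : H ≃ₗᵢ[ℂ] H)
    (ha : ∀ z w, U (z.1 + m * z.2, z.2) (a w) = a (U z w))
    (hb : ∀ z w, U (z.1, z.2 + m * z.1) (b w) = b (U z w))
    (v : H) (hv : ‖v‖ = 1) (δ : ℝ) (hδ : 0 ≤ δ)
    (h1 : ‖a v - v‖ ≤ δ) (h2 : ‖b v - v‖ ≤ δ)
    (h3 : ‖U ((m : ZMod p), 0) v - v‖ ≤ δ) (h4 : ‖U (0, (m : ZMod p)) v - v‖ ≤ δ)
    (z : ZMod p × ZMod p) :
    ‖U z v - v‖ ^ 2 ≤ 128 * δ + 32 * ((m : ℝ) + 1) ^ 2 * δ ^ 2 := by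
  set μ : ZMod p × ZMod p → ℝ := fun ζ => ‖specP U ζ v‖ ^ 2 with hμdef
  have hμ : ∀ ζ, 0 ≤ μ ζ := fun ζ => by positivity
  have sub_le : ∀ (w : H) (E : Finset (ZMod p × ZMod p)),
      ∑ ζ ∈ E, ‖specP U ζ w‖ ^ 2 ≤ ‖w‖ ^ 2 := by
    intro w E
    rw [← parseval U w]
    exact Finset.sum_le_sum_of_subset_of_nonneg (Finset.subset_univ _)
      (fun _ _ _ => by positivity)
  have hA : ∀ E : Finset (ZMod p × ZMod p),
      |∑ ζ ∈ E, μ (ζ.1, ζ.2 + m * ζ.1) - ∑ ζ ∈ E, μ ζ| ≤ 2 * δ := by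
    intro E
    have e1 : ∀ ζ : ZMod p × ZMod p, μ (ζ.1, ζ.2 + m * ζ.1) = ‖specP U ζ (a v)‖ ^ 2 := by
      intro ζ
      rw [specP_a U m a ha, LinearIsometryEquiv.norm_map]
    simp only [e1]
    apply diff_bound E (fun ζ => specP U ζ (a v)) (fun ζ => specP U ζ v) δ hδ
    · refine (sub_le _ E).trans ?_
      rw [LinearIsometryEquiv.norm_map, hv]
      norm_num
    · refine (sub_le _ E).trans ?_
      rw [hv]
      norm_num
    · simp only [← specP_sub]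
      refine (sub_le _ E).trans ?_
      exact pow_le_pow_left₀ (norm_nonneg _) h1 2
  have hB : ∀ E : Finset (ZMod p × ZMod p),
      |∑ ζ ∈ E, μ (ζ.1 + m * ζ.2, ζ.2) - ∑ ζ ∈ E, μ ζ| ≤ 2 * δ := by
    intro E
    have e1 : ∀ ζ : ZMod p × ZMod p, μ (ζ.1 + m * ζ.2, ζ.2) = ‖specP U ζ (b v)‖ ^ 2 := by
      intro ζ
      rw [specP_b U m b hb, LinearIsometryEquiv.norm_map]
    simp only [e1]
    apply diff_bound E (fun ζ => specP U ζ (b v)) (fun ζ => specP U ζ v) δ hδ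
    · refine (sub_le _ E).trans ?_
      rw [LinearIsometryEquiv.norm_map, hv]
      norm_num
    · refine (sub_le _ E).trans ?_
      rw [hv]
      norm_num
    · simp only [← specP_sub]
      refine (sub_le _ E).trans ?_
      exact pow_le_pow_left₀ (norm_nonneg _) h2 2
  have hm1 : (0 : ℝ) < ((m : ℝ) + 1) ^ 2 := by positivity
  have hX : ∑ ζ ∈ Finset.univ.filter (fun z : ZMod p × ZMod p =>
      ¬ (2 * ((m : ℤ) + 1) * |((m : ZMod p) * z.1).valMinAbs| < p)), μ ζ ≤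
      ((m : ℝ) + 1) ^ 2 * δ ^ 2 / 4 := by
    have e1 : ∑ ζ ∈ Finset.univ.filter (fun z : ZMod p × ZMod p =>
      ¬ (2 * ((m : ℤ) + 1) * |((m : ZMod p) * z.1).valMinAbs| < p)),
      (4 / ((m : ℝ) + 1) ^ 2) * μ ζ ≤ δ ^ 2 := by
      refine le_trans ?_ ((sub_le (U ((m : ZMod p), 0) v - v) (Finset.univ.filter
        (fun z : ZMod p × ZMod p =>
        ¬ (2 * ((m : ℤ) + 1) * |((m : ZMod p) * z.1).valMinAbs| < p)))).trans
        (pow_le_pow_left₀ (norm_nonneg _) h3 2))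
      apply Finset.sum_le_sum
      intro ζ hζ
      rw [Finset.mem_filter] at hζ
      have e2 : specP U ζ (U ((m : ZMod p), 0) v - v) =
          ((ZMod.stdAddChar ((m : ZMod p) * ζ.1) : ℂ) - 1) • specP U ζ v := by
        rw [specP_sub, specP_U U hU, sub_smul, one_smul]
        congr 3
        simp only [dot]
        ring
      rw [e2, norm_smul, mul_pow]
      exact mul_le_mul_of_nonneg_right (char_lower m ζ.1 hζ.2) (by positivity)
    rw [← Finset.mul_sum] at e1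
    rw [le_div_iff₀ (by norm_num)]
    rw [div_mul_eq_mul_div, div_le_iff₀ hm1] at e1
    linarith
  have hY : ∑ ζ ∈ Finset.univ.filter (fun z : ZMod p × ZMod p =>
      ¬ (2 * ((m : ℤ) + 1) * |((m : ZMod p) * z.2).valMinAbs| < p)), μ ζ ≤
      ((m : ℝ) + 1) ^ 2 * δ ^ 2 / 4 := by
    have e1 : ∑ ζ ∈ Finset.univ.filter (fun z : ZMod p × ZMod p =>
      ¬ (2 * ((m : ℤ) + 1) * |((m : ZMod p) * z.2).valMinAbs| < p)),
      (4 / ((m : ℝ) + 1) ^ 2) * μ ζ ≤ δ ^ 2 := by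
      refine le_trans ?_ ((sub_le (U (0, (m : ZMod p)) v - v) (Finset.univ.filter
        (fun z : ZMod p × ZMod p =>
        ¬ (2 * ((m : ℤ) + 1) * |((m : ZMod p) * z.2).valMinAbs| < p)))).trans
        (pow_le_pow_left₀ (norm_nonneg _) h4 2))
      apply Finset.sum_le_sum
      intro ζ hζ
      rw [Finset.mem_filter] at hζ
      have e2 : specP U ζ (U (0, (m : ZMod p)) v - v) =
          ((ZMod.stdAddChar ((m : ZMod p) * ζ.2) : ℂ) - 1) • specP U ζ v := by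
        rw [specP_sub, specP_U U hU, sub_smul, one_smul]
        congr 3
        simp only [dot]
        ring
      rw [e2, norm_smul, mul_pow]
      exact mul_le_mul_of_nonneg_right (char_lower m ζ.2 hζ.2) (by positivity)
    rw [← Finset.mul_sum] at e1
    rw [le_div_iff₀ (by norm_num)]
    rw [div_mul_eq_mul_div, div_le_iff₀ hm1] at e1
    linarith
  have hmain := measure_bound m hm hpm μ hμ (2 * δ) (((m : ℝ) + 1) ^ 2 * δ ^ 2 / 4) hA hB hX hY
  have hfin : ‖U z v - v‖ ^ 2 ≤ 4 * ∑ ζ ∈ Finset.univ.filter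
      (fun z : ZMod p × ZMod p => z ≠ 0), μ ζ := by
    rw [← parseval U (U z v - v), Finset.mul_sum, Finset.sum_filter]
    apply Finset.sum_le_sum
    intro ζ _
    rw [specP_sub, specP_U U hU]
    by_cases h0 : ζ = 0
    · rw [if_neg (by simpa using h0)]
      simp [h0, dot]
    · rw [if_pos h0]
      have e3 : (ZMod.stdAddChar (dot ζ z) : ℂ) • specP U ζ v - specP U ζ v =
        ((ZMod.stdAddChar (dot ζ z) : ℂ) - 1) • specP U ζ v := by
        rw [sub_smul, one_smul]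
      rw [e3, norm_smul, mul_pow]
      have e4 : ‖(ZMod.stdAddChar (dot ζ z) : ℂ) - 1‖ ≤ 2 := by
        refine (norm_sub_le _ _).trans ?_
        rw [AddChar.norm_apply, norm_one]
        norm_num
      have e5 : ‖(ZMod.stdAddChar (dot ζ z) : ℂ) - 1‖ ^ 2 ≤ 4 := by
        calc _ ≤ (2:ℝ) ^ 2 := pow_le_pow_left₀ (norm_nonneg _) e4 2
          _ = 4 := by norm_num
      exact mul_le_mul_of_nonneg_right e5 (by positivity)
  linarith

end Spectral

end MP2ab1ce
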