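import Mathlib
import Pool.Agent.Lib.MP_2ab1ce_al.RelT
import Pool.Agent.Lib.MP_2ab1ce_al.BoundedGen
import Pool.Agent.Lib.MP_2ab1ce_al.Cayley

namespace MP2ab1ce

open Matrix Module

section Mat

variable (n : ℕ) (F : Type*) [Field F]

/-- action on column vectors -/
noncomputable def rho : SpecialLinearGroup (Fin n) F →* Module.End F (Fin n → F) where
  toFun g := Matrix.toLin' (g : Matrix (Fin n) (Fin n) F)
  map_one' := Matrix.toLin'_one
  map_mul' g h := Matrix.toLin'_mul (g : Matrix (Fin n) (Fin n) F) (h : Matrix (Fin n) (Fin n) F)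

theorem rho_apply (g : SpecialLinearGroup (Fin n) F) (x : Fin n → F) :
    rho n F g x = (g : Matrix (Fin n) (Fin n) F) *ᵥ x := rfl

theorem rho_injective : Function.Injective (rho n F) := by
  intro g h hgh
  have : Matrix.toLin' (g : Matrix (Fin n) (Fin n) F) = Matrix.toLin' h := hgh
  exact Subtype.ext (Matrix.toLin'.injective this)

theorem det_rho (g : SpecialLinearGroup (Fin n) F) : LinearMap.det (rho n F g) = 1 := by
  change LinearMap.det (Matrix.toLin' (g : Matrix (Fin n) (Fin n) F)) = 1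
  rw [LinearMap.det_toLin', g.det_coe]

variable {n F}

/-- coefficient vector of a functional -/
noncomputable def cvec (φ : Dual F (Fin n → F)) : Fin n → F := fun j => φ (Pi.single j 1)

theorem cvec_dot (φ : Dual F (Fin n → F)) (x : Fin n → F) : cvec φ ⬝ᵥ x = φ x := by
  have h : x = ∑ j, x j • (Pi.single j (1 : F) : Fin n → F) := by
    simpa using (pi_eq_sum_univ' x)
  conv_rhs => rw [h]
  rw [map_sum]
  simp only [dotProduct, cvec, map_smul, smul_eq_mul]
  apply Finset.sum_congr rfl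
  intro j _
  ring

/-- transvection -/
noncomputable def TT (u : Fin n → F) (φ : Dual F (Fin n → F)) : SpecialLinearGroup (Fin n) F :=
  open Classical in
  if h : φ u = 0 then ⟨1 + vecMulVec u (cvec φ), by
    rw [vecMulVec_eq Unit, det_one_add_replicateCol_mul_replicateRow, cvec_dot, h, add_zero]⟩
  else 1

theorem TT_spec (u : Fin n → F) (φ : Dual F (Fin n → F)) (h : φ u = 0) (x : Fin n → F) :
    rho n F (TT u φ) x = x + φ x • u := by
  have hval : (TT u φ : Matrix (Fin n) (Fin n) F) = 1 + vecMulVec u (cvec φ) := by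
    have : TT u φ = ⟨1 + vecMulVec u (cvec φ), by
      rw [vecMulVec_eq Unit, det_one_add_replicateCol_mul_replicateRow, cvec_dot, h,
        add_zero]⟩ := dif_pos h
    rw [this]
  rw [rho_apply, hval]
  rw [Matrix.add_mulVec, Matrix.one_mulVec, Matrix.vecMulVec_mulVec, cvec_dot]
  congr 1
  ext i
  simp [mul_comm]

end Mat

section Words

variable {G : Type*} [Group G] (κ : G → ℝ) (κmul : ∀ g h, κ (g * h) ≤ κ g + κ h) (κ1 : κ 1 = 0)

include κmul κ1

theorem word_bound (S : Set G) (δ : ℝ) (hS : ∀ s ∈ S, κ s ≤ δ) (l : List G)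
    (hl : ∀ x ∈ l, x ∈ S) : κ l.prod ≤ l.length * δ := by
  induction l with
  | nil => simp [κ1]
  | cons a l ih =>
    rw [List.prod_cons, List.length_cons]
    have h1 := κmul a l.prod
    have h2 := hS a (hl a (by simp))
    have h3 := ih (fun x hx => hl x (by simp [hx]))
    push_cast
    linarith

theorem pow_bound (g : G) (k : ℕ) : κ (g ^ k) ≤ k * κ g := by
  induction k with
  | zero => simp [κ1]
  | succ k ih =>
    rw [pow_succ]
    have := κmul (g ^ k) g
    push_cast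
    linarith

end Words

section Tpow

variable {F V G : Type*} [Field F] [AddCommGroup V] [Module F V] [Group G]
  (ρ : G →* Module.End F V) (hρ : Function.Injective ρ)
  (T : V → Dual F V → G) (hT : ∀ u φ, φ u = 0 → ∀ x, ρ (T u φ) x = x + φ x • u)

include hρ hT

theorem T_pow (u : V) (φ : Dual F V) (hu : φ u = 0) (k : ℕ) :
    (T u φ) ^ k = T ((k : F) • u) φ := by
  induction k with
  | zero =>
    rw [Nat.cast_zero, zero_smul, T_zero ρ hρ T hT, pow_zero]
  | succ k ih =>
    rw [pow_succ, ih, ← T_add ρ hρ T hT _ _ _ (by rw [map_smul, hu, smul_zero]) hu]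
    congr 1
    push_cast
    rw [add_smul, one_smul]

theorem T_comm' (u' e : V) (ψ ψ' : Dual F V) (h1 : ψ' u' = 0) (h2 : ψ u' = 0) (h3 : ψ e = 0) :
    T (ψ' e • u') ψ = T u' ψ' * T e ψ * (T u' ψ')⁻¹ * (T e ψ)⁻¹ := by
  rw [eq_mul_inv_iff_mul_eq, eq_mul_inv_iff_mul_eq]
  apply hρ
  ext x
  simp only [map_mul, Module.End.mul_apply]
  rw [hT _ _ h1, hT _ _ h1, hT _ _ h3, hT _ _ h3, hT _ _ (by rw [map_smul, h2, smul_zero])]
  simp only [map_add, map_smul, h1, h2, h3, smul_zero, add_zero, smul_eq_mul, mul_zero,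
    add_smul, smul_smul]
  abel

/-- the action of a seed on the abelian subgroup -/
theorem T_inter (a : G) (u u1 e : V) (ψ ψ' : Dual F V) (he : ψ' e = 0) (hψe : ψ e = 0)
    (ha : a = T e ψ') (hu : ψ u = 0) (hu1 : u1 = u + ψ' u • e) :
    T u1 ψ * a = a * T u ψ := by
  subst ha hu1
  apply hρ
  ext x
  simp only [map_mul, Module.End.mul_apply]
  rw [hT _ _ he, hT _ _ he, hT _ _ hu, hT _ _ (by rw [map_add, map_smul, hu, hψe]; simp)]
  simp only [map_add, map_smul, hu, hψe, smul_zero, add_zero, smul_eq_mul, mul_zero,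
    add_smul, smul_smul, smul_add]
  abel

end Tpow

section Core

variable {n p : ℕ} [Fact p.Prime]

/-- The core estimate: a unit vector of the regular representation moved little by the
generators is moved little by everything. -/
theorem core (m N : ℕ) (hm : 1 ≤ m) (hpm : ¬ p ∣ m)
    (S : Finset (SpecialLinearGroup (Fin n) (ZMod p))) (hSinv : ∀ s ∈ S, s⁻¹ ∈ S)
    (hS : Subgroup.closure (S : Set (SpecialLinearGroup (Fin n) (ZMod p))) = ⊤)
    (h : GL (Fin n) (ZMod p)) (i j k : Fin n) (hij : i ≠ j) (hik : i ≠ k) (hjk : j ≠ k)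
    (hseed : ∀ q ∈ ({(i, j), (j, i), (i, k)} : Finset (Fin n × Fin n)),
        ∃ l : List (SpecialLinearGroup (Fin n) (ZMod p)), l.length ≤ N ∧ (∀ x ∈ l, x ∈ S) ∧
          ((l.prod : SpecialLinearGroup (Fin n) (ZMod p)) : Matrix (Fin n) (Fin n) (ZMod p)) =
            (h : Matrix (Fin n) (Fin n) (ZMod p)) * transvection q.1 q.2 (m : ZMod p) *
              ((h⁻¹ : GL (Fin n) (ZMod p)) : Matrix (Fin n) (Fin n) (ZMod p)))
    (v : EuclideanSpace ℂ (SpecialLinearGroup (Fin n) (ZMod p))) (hv : ‖v‖ = 1)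
    (δ : ℝ) (hδ : 0 ≤ δ) (hvS : ∀ s ∈ S, ‖piG s v - v‖ ≤ δ)
    (g : SpecialLinearGroup (Fin n) (ZMod p)) :
    ‖piG g v - v‖ ≤ 3 * n * ((5 * n + 2) * ((20 * n + 8) ^ n * (δ +
      √(128 * ((m + 4) * N * δ) + 32 * ((m ^ 2 : ℕ) + 1) ^ 2 * ((m + 4) * N * δ) ^ 2)))) := by
  classical
  set κ : SpecialLinearGroup (Fin n) (ZMod p) → ℝ := fun g => ‖piG g v - v‖ with hκ
  have κ1 : κ 1 = 0 := by
    simp only [hκ, piG_one]
    simp
  have κmul : ∀ g h, κ (g * h) ≤ κ g + κ h := by
    intro g h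
    simp only [hκ, piG_mul]
    have e : (piG g * piG h) v - v = piG g (piG h v - v) + (piG g v - v) := by
      rw [map_sub, LinearIsometryEquiv.coe_mul, Function.comp_apply]
      abel
    rw [e]
    refine (norm_add_le _ _).trans ?_
    rw [LinearIsometryEquiv.norm_map, add_comm]
  have κinv : ∀ g, κ g⁻¹ = κ g := by
    intro g
    simp only [hκ]
    have e : piG g (piG g⁻¹ v - v) = -(piG g v - v) := by
      rw [map_sub, ← Function.comp_apply (f := piG g) (g := piG g⁻¹),
        ← LinearIsometryEquiv.coe_mul, ← piG_mul, mul_inv_cancel, piG_one]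
      simp
    rw [← LinearIsometryEquiv.norm_map (piG g) (piG g⁻¹ v - v), e, norm_neg]
  -- frame
  set hM : Matrix (Fin n) (Fin n) (ZMod p) := (h : Matrix (Fin n) (Fin n) (ZMod p)) with hhM
  set hI : Matrix (Fin n) (Fin n) (ZMod p) :=
    ((h⁻¹ : GL (Fin n) (ZMod p)) : Matrix (Fin n) (Fin n) (ZMod p)) with hhI
  have hIM : hI * hM = 1 := by
    rw [hhI, hhM, ← Units.val_mul, inv_mul_cancel, Units.val_one]
  have hMI : hM * hI = 1 := by
    rw [hhI, hhM, ← Units.val_mul, mul_inv_cancel, Units.val_one]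
  set b : Fin n → (Fin n → ZMod p) := fun a => hM *ᵥ (Pi.single a 1) with hb
  set ψ : Fin n → Dual (ZMod p) (Fin n → ZMod p) :=
    fun a => (LinearMap.proj a).comp (Matrix.toLin' hI) with hψ
  have ψ_apply : ∀ a x, ψ a x = (hI *ᵥ x) a := fun a x => rfl
  have ψb : ∀ a c, ψ a (b c) = if a = c then 1 else 0 := by
    intro a c
    rw [ψ_apply, hb]
    simp only
    rw [Matrix.mulVec_mulVec, hIM, Matrix.one_mulVec, Pi.single_apply]
  set ρ := rho n (ZMod p) with hρdef
  have hρ : Function.Injective ρ := rho_injective n (ZMod p)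
  have hT : ∀ (u : Fin n → ZMod p) (φ : Dual (ZMod p) (Fin n → ZMod p)), φ u = 0 →
    ∀ x, ρ (TT u φ) x = x + φ x • u := fun u φ h x => TT_spec u φ h x
  -- seeds
  have seed : ∀ a c : Fin n, a ≠ c → (a, c) ∈ ({(i, j), (j, i), (i, k)} : Finset (Fin n × Fin n)) →
      κ (TT ((m : ZMod p) • b a) (ψ c)) ≤ N * δ := by
    intro a c hac hmem
    obtain ⟨l, hl1, hl2, hl3⟩ := hseed (a, c) hmem
    have h0 : ψ c ((m : ZMod p) • b a) = 0 := by
      rw [map_smul, ψb, if_neg (Ne.symm hac), smul_zero]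
    have e : TT ((m : ZMod p) • b a) (ψ c) = l.prod := by
      apply hρ
      refine LinearMap.ext (fun x => ?_)
      rw [hT _ _ h0]
      change _ = ((l.prod : SpecialLinearGroup (Fin n) (ZMod p)) :
        Matrix (Fin n) (Fin n) (ZMod p)) *ᵥ x
      rw [hl3]
      simp only [transvection]
      rw [Matrix.mul_add, Matrix.add_mul, Matrix.mul_one, hMI, Matrix.add_mulVec,
        Matrix.one_mulVec]
      congr 1
      rw [← Matrix.mulVec_mulVec, ← Matrix.mulVec_mulVec, ψ_apply]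
      have : (Matrix.single a c (m : ZMod p)) *ᵥ (hI *ᵥ x) =
          ((hI *ᵥ x) c * (m : ZMod p)) • (Pi.single a 1 : Fin n → ZMod p) := by
        ext r
        rw [Matrix.single_mulVec, Pi.smul_apply, Pi.single_apply, Function.update_apply]
        by_cases hr : r = a
        · simp [hr, mul_comm]
        · simp [hr]
      rw [this, Matrix.mulVec_smul, smul_smul]
    rw [e]
    have h1 := word_bound κ κmul κ1 (S : Set (SpecialLinearGroup (Fin n) (ZMod p))) δ (fun s hs => hvS s (by simpa using hs)) l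
      (fun x hx => by simpa using hl2 x hx)
    refine h1.trans (mul_le_mul_of_nonneg_right (by exact_mod_cast hl1) hδ)
  have s1 := seed i j hij (by simp)
  have s2 := seed j i hij.symm (by simp)
  have s3 := seed i k hik (by simp)
  have hNδ : 0 ≤ (N : ℝ) * δ := by positivity
  have z1 : ψ j ((m : ZMod p) • b i) = 0 := by rw [map_smul, ψb, if_neg hij.symm, smul_zero]
  have z2 : ψ i ((m : ZMod p) • b j) = 0 := by rw [map_smul, ψb, if_neg hij, smul_zero]
  have z3 : ψ k ((m : ZMod p) • b i) = 0 := by rw [map_smul, ψb, if_neg hik.symm, smul_zero]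
  have z4 : ψ k ((m : ZMod p) • b j) = 0 := by rw [map_smul, ψb, if_neg hjk.symm, smul_zero]
  have hsq : ∀ x : Fin n → ZMod p, ((m ^ 2 : ℕ) : ZMod p) • x = (m : ZMod p) • ((m : ZMod p) • x) := by
    intro x
    rw [smul_smul]
    push_cast
    rw [sq]
  set δ' : ℝ := (m + 4) * N * δ with hδ'
  have hm0 : (0 : ℝ) ≤ m := Nat.cast_nonneg m
  have hmm : (m : ℝ) * (N * δ) ≤ δ' := by
    rw [hδ']
    nlinarith
  have S1 : κ (TT (((m ^ 2 : ℕ) : ZMod p) • b i) (ψ j)) ≤ δ' := by
    rw [hsq, ← T_pow ρ hρ TT hT _ _ z1]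
    refine (pow_bound κ κmul κ1 _ m).trans ((mul_le_mul_of_nonneg_left s1 hm0).trans hmm)
  have S2 : κ (TT (((m ^ 2 : ℕ) : ZMod p) • b j) (ψ i)) ≤ δ' := by
    rw [hsq, ← T_pow ρ hρ TT hT _ _ z2]
    refine (pow_bound κ κmul κ1 _ m).trans ((mul_le_mul_of_nonneg_left s2 hm0).trans hmm)
  have S3 : κ (TT (((m ^ 2 : ℕ) : ZMod p) • b i) (ψ k)) ≤ δ' := by
    rw [hsq, ← T_pow ρ hρ TT hT _ _ z3]
    refine (pow_bound κ κmul κ1 _ m).trans ((mul_le_mul_of_nonneg_left s3 hm0).trans hmm)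
  have S4 : κ (TT (((m ^ 2 : ℕ) : ZMod p) • b j) (ψ k)) ≤ δ' := by
    have e := T_comm' ρ hρ TT hT ((m : ZMod p) • b j) ((m : ZMod p) • b i) (ψ k) (ψ i) z2 z4 z3
    have e2 : ψ i ((m : ZMod p) • b i) = (m : ZMod p) := by
      rw [map_smul, ψb, if_pos rfl, smul_eq_mul, mul_one]
    rw [e2] at e
    rw [hsq, e]
    have b1 := κmul (TT ((m : ZMod p) • b j) (ψ i) * TT ((m : ZMod p) • b i) (ψ k) *
      (TT ((m : ZMod p) • b j) (ψ i))⁻¹) (TT ((m : ZMod p) • b i) (ψ k))⁻¹
    have b2 := κmul (TT ((m : ZMod p) • b j) (ψ i) * TT ((m : ZMod p) • b i) (ψ k))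
      (TT ((m : ZMod p) • b j) (ψ i))⁻¹
    have b3 := κmul (TT ((m : ZMod p) • b j) (ψ i)) (TT ((m : ZMod p) • b i) (ψ k))
    rw [κinv] at b1 b2
    have : 4 * ((N : ℝ) * δ) ≤ δ' := by
      rw [hδ']
      nlinarith
    linarith
  have hδ'0 : 0 ≤ δ' := by rw [hδ']; positivity
  -- relative property T
  set U : ZMod p × ZMod p →
      (EuclideanSpace ℂ (SpecialLinearGroup (Fin n) (ZMod p)) ≃ₗᵢ[ℂ]
        EuclideanSpace ℂ (SpecialLinearGroup (Fin n) (ZMod p))) :=
    fun z => piG (TT (z.1 • b i + z.2 • b j) (ψ k)) with hU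
  have hk0 : ∀ z : ZMod p × ZMod p, ψ k (z.1 • b i + z.2 • b j) = 0 := by
    intro z
    rw [map_add, map_smul, map_smul, ψb, ψb, if_neg hik.symm, if_neg hjk.symm]
    simp
  have hUadd : ∀ z z', U (z + z') = U z * U z' := by
    intro z z'
    simp only [hU]
    rw [← piG_mul, ← T_add ρ hρ TT hT _ _ _ (hk0 z) (hk0 z')]
    congr 2
    simp only [Prod.fst_add, Prod.snd_add, add_smul]
    abel
  have hpm2 : ¬ p ∣ m ^ 2 := fun hd => hpm ((Fact.out : p.Prime).dvd_of_dvd_pow hd)
  have hm2 : 1 ≤ m ^ 2 := Nat.one_le_pow _ _ hm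
  have Z1 : ψ j (((m ^ 2 : ℕ) : ZMod p) • b i) = 0 := by
    rw [map_smul, ψb, if_neg hij.symm, smul_zero]
  have Z2 : ψ i (((m ^ 2 : ℕ) : ZMod p) • b j) = 0 := by
    rw [map_smul, ψb, if_neg hij, smul_zero]
  have Z3 : ψ k (((m ^ 2 : ℕ) : ZMod p) • b i) = 0 := by
    rw [map_smul, ψb, if_neg hik.symm, smul_zero]
  have Z4 : ψ k (((m ^ 2 : ℕ) : ZMod p) • b j) = 0 := by
    rw [map_smul, ψb, if_neg hjk.symm, smul_zero]
  have hrel := relT (p := p) (m ^ 2) hm2 hpm2 U hUadd
    (piG (TT (((m ^ 2 : ℕ) : ZMod p) • b i) (ψ j)))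
    (piG (TT (((m ^ 2 : ℕ) : ZMod p) • b j) (ψ i)))
    (by
      intro z w
      have := T_inter ρ hρ TT hT (TT (((m ^ 2 : ℕ) : ZMod p) • b i) (ψ j))
        (z.1 • b i + z.2 • b j) ((z.1 + ((m ^ 2 : ℕ) : ZMod p) * z.2) • b i + z.2 • b j)
        (((m ^ 2 : ℕ) : ZMod p) • b i) (ψ k) (ψ j) Z1 Z3 rfl (hk0 z) (by
          rw [map_add, map_smul, map_smul, ψb, ψb, if_neg hij.symm, if_pos rfl, smul_zero,
            zero_add, smul_eq_mul, mul_one, add_smul, smul_smul, mul_comm z.2]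
          abel)
      simp only [hU]
      rw [← Function.comp_apply (f := piG _) (g := piG _), ← LinearIsometryEquiv.coe_mul,
        ← piG_mul, this, piG_mul, LinearIsometryEquiv.coe_mul, Function.comp_apply])
    (by
      intro z w
      have := T_inter ρ hρ TT hT (TT (((m ^ 2 : ℕ) : ZMod p) • b j) (ψ i))
        (z.1 • b i + z.2 • b j) (z.1 • b i + (z.2 + ((m ^ 2 : ℕ) : ZMod p) * z.1) • b j)
        (((m ^ 2 : ℕ) : ZMod p) • b j) (ψ k) (ψ i) Z2 Z4 rfl (hk0 z) (by
          rw [map_add, map_smul, map_smul, ψb, ψb, if_neg hij, if_pos rfl, smul_zero,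
            add_zero, smul_eq_mul, mul_one, add_smul, smul_smul, mul_comm z.1]
          abel)
      simp only [hU]
      rw [← Function.comp_apply (f := piG _) (g := piG _), ← LinearIsometryEquiv.coe_mul,
        ← piG_mul, this, piG_mul, LinearIsometryEquiv.coe_mul, Function.comp_apply])
    v hv δ' hδ'0 S1 S2
    (by
      simp only [hU]
      rw [zero_smul, add_zero]
      exact S3)
    (by
      simp only [hU]
      rw [zero_smul, zero_add]
      exact S4)
  -- bounded generation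
  set A0map : (ZMod p × ZMod p) →ₗ[ZMod p] (Fin n → ZMod p) :=
    (LinearMap.toSpanSingleton (ZMod p) _ (b i)).coprod
      (LinearMap.toSpanSingleton (ZMod p) _ (b j)) with hA0map
  have hA0app : ∀ z, A0map z = z.1 • b i + z.2 • b j := by
    intro z
    rw [hA0map]
    simp
  have hA0inj : Function.Injective A0map := by
    rw [injective_iff_map_eq_zero]
    intro z hz
    rw [hA0app] at hz
    have h1 := congrArg (ψ i) hz
    have h2 := congrArg (ψ j) hz
    rw [map_add, map_smul, map_smul, ψb, ψb, if_neg hij, if_pos rfl, map_zero] at h1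
    rw [map_add, map_smul, map_smul, ψb, ψb, if_neg hij.symm, if_pos rfl, map_zero] at h2
    apply Prod.ext
    · simpa using h1
    · simpa using h2
  have hfr : finrank (ZMod p) (Fin n → ZMod p) = n := Module.finrank_fin_fun (ZMod p)
  set c : ℝ := δ + √(128 * δ' + 32 * ((m ^ 2 : ℕ) + 1) ^ 2 * δ' ^ 2) with hc
  have hc0 : 0 ≤ c := by rw [hc]; positivity
  have hfin := bounded_gen ρ hρ TT hT κ κmul κinv κ1 (det_rho n (ZMod p)) (S : Set (SpecialLinearGroup (Fin n) (ZMod p)))
    (fun s hs => by simpa using hSinv s (by simpa using hs)) hS c hc0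
    (by
      intro s hs
      have h1 := hvS s (by simpa using hs)
      have h2 : 0 ≤ √(128 * δ' + 32 * ((m ^ 2 : ℕ) + 1) ^ 2 * δ' ^ 2) := Real.sqrt_nonneg _
      rw [hc]
      change ‖piG s v - v‖ ≤ _
      linarith)
    (ψ k)
    (by
      intro h0
      have := congrArg (fun f : Dual (ZMod p) (Fin n → ZMod p) => f (b k)) h0
      simp only [ψb, if_pos, LinearMap.zero_apply] at this
      exact one_ne_zero this)
    (LinearMap.range A0map)
    (by
      rintro _ ⟨z, rfl⟩
      rw [LinearMap.mem_ker, hA0app]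
      exact hk0 z)
    (by
      rw [LinearMap.finrank_range_of_inj hA0inj]
      simp)
    (by
      rintro _ ⟨z, rfl⟩
      rw [hA0app]
      have h1 := hrel z
      have h2 : ‖U z v - v‖ ≤ √(128 * δ' + 32 * ((m ^ 2 : ℕ) + 1) ^ 2 * δ' ^ 2) := by
        apply Real.le_sqrt_of_sq_le
        exact h1
      rw [hc]
      change ‖U z v - v‖ ≤ _
      linarith)
    g
  rw [hfr] at hfin
  exact hfin

end Core

end MP2ab1ce
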